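import Mathlib

/-!
Functions on the multiplicative group of a finite field with a second difference relation along
the map `y ↦ (1 - y) / (w - y)` are constant. Dirichlet's theorem with two moduli.
-/

open Finset

namespace Pool.Agent.MuW2

section Const

variable {K : Type} [Field K] [Fintype K] [DecidableEq K] {F : Type} [Field F]

/-- The relations of the function `f`. -/
def Rel (w : Kˣ) (f : Kˣ → F) : Prop :=
  (∀ t, f (w * t) = f t) ∧ ∀ t y r : Kˣ, y ≠ 1 → y ≠ w → (r : K) * (w - y) = 1 - y →
    f (t * y) - f t = f (t * r * y) - f (t * r)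

/-- The map `y ↦ (1 - y) / (w - y)`. -/
noncomputable def rho (w y : Kˣ) : Kˣ :=
  if h : (1 - (y : K)) / (w - y) ≠ 0 then Units.mk0 _ h else 1

omit [Fintype K] in
lemma rho_spec {w y : Kˣ} (h1 : y ≠ 1) (hw : y ≠ w) : (rho w y : K) * (w - y) = 1 - y := by
  have e1 : (1 - (y : K)) ≠ 0 := by
    intro h
    exact h1 (Units.ext (by rw [Units.val_one]; exact (sub_eq_zero.mp h).symm))
  have e2 : ((w : K) - y) ≠ 0 := by
    intro h
    exact hw (Units.ext (sub_eq_zero.mp h).symm)
  have e3 : (1 - (y : K)) / (w - y) ≠ 0 := div_ne_zero e1 e2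
  rw [rho, dif_pos e3, Units.val_mk0, div_mul_cancel₀ _ e2]

omit [Fintype K] in
lemma rho_inj {w y y' : Kˣ} (hw1 : w ≠ 1) (h1 : y ≠ 1) (hw : y ≠ w) (h1' : y' ≠ 1) (hw' : y' ≠ w)
    (h : rho w y = rho w y') : y = y' := by
  have e := rho_spec h1 hw
  have e' := rho_spec h1' hw'
  rw [h] at e
  have e2 : ((w : K) - y) ≠ 0 := by
    intro h
    exact hw (Units.ext (sub_eq_zero.mp h).symm)
  have e3 : (w : K) - 1 ≠ 0 := by
    intro h
    exact hw1 (Units.ext (by rw [Units.val_one]; exact sub_eq_zero.mp h))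
  have e4 : ((w : K) - 1) * (y - y') = 0 := by
    have h5 : (rho w y' : K) * (w - y) * (w - y') = (1 - y) * (w - y') := by rw [e]
    have h6 : (rho w y' : K) * (w - y') * (w - y) = (1 - y') * (w - y) := by rw [e']
    linear_combination h5 - h6
  have e5 := (mul_eq_zero.mp e4).resolve_left e3
  exact Units.ext (sub_eq_zero.mp e5)

theorem const_aux {w : Kˣ} (hw : w ≠ 1) (hcard : ((Fintype.card Kˣ : ℕ) : F) ≠ 0) (n : ℕ) :
    ∀ f : Kˣ → F, Rel w f → (∃ T : Finset Kˣ, T.card ≤ n ∧ ∀ s ∉ T, ∀ t, f (s * t) = f t) →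
      ∀ t, f t = f 1 := by
  classical
  induction n with
  | zero =>
    rintro f _ ⟨T, hT, hT2⟩ t
    have hT0 : T = ∅ := card_eq_zero.mp (by omega)
    have h1 := hT2 t (by rw [hT0]; exact notMem_empty _) 1
    rw [mul_one] at h1
    exact h1
  | succ n ih =>
    rintro f hf ⟨T0, hT0, hT02⟩ t
    by_cases hall : ∀ s t, f (s * t) = f t
    · have h1 := hall t 1
      rw [mul_one] at h1
      exact h1
    exfalso
    push Not at hall
    obtain ⟨z, tz, hz⟩ := hall
    let S : Finset Kˣ := univ.filter fun s => ∀ t, f (s * t) = f t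
    let T : Finset Kˣ := univ.filter fun s => ¬ ∀ t, f (s * t) = f t
    have hTT0 : T ⊆ T0 := by
      intro s hs
      by_contra hcon
      exact (mem_filter.mp hs).2 (hT02 s hcon)
    have h1 : S.card ≤ T.card := by
      apply card_le_card_of_injOn (fun s => z * s)
      · intro s hs
        have hs' : ∀ t, f (s * t) = f t := (mem_filter.mp hs).2
        simp only [T, coe_filter, mem_univ, true_and, Set.mem_ofPred_eq]
        intro hcon
        apply hz
        have h2 := hcon (s⁻¹ * tz)
        have h3 := hs' (s⁻¹ * tz)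
        rw [mul_inv_cancel_left] at h3
        rw [mul_assoc, mul_inv_cancel_left] at h2
        rw [h2, ← h3]
      · intro s _ s' _ hss
        exact mul_left_cancel hss
    have h1S : (1 : Kˣ) ∈ S := by
      simp [S]
    have hwS : w ∈ S := by
      simp only [S, mem_filter, mem_univ, true_and]
      exact hf.1
    have hne : ∀ y ∈ T, y ≠ 1 ∧ y ≠ w := by
      intro y hy
      constructor
      · rintro rfl
        exact (mem_filter.mp hy).2 (mem_filter.mp h1S).2
      · rintro rfl
        exact (mem_filter.mp hy).2 (mem_filter.mp hwS).2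
    have h2 : ∃ y ∈ T, rho w y ∈ T := by
      by_contra hcon
      push Not at hcon
      have h3 : T.card ≤ (S.erase 1).card := by
        apply card_le_card_of_injOn (fun y => rho w y)
        · intro y hy
          have hy' := hcon y hy
          rw [mem_coe, mem_erase]
          constructor
          · intro h4
            change rho w y = 1 at h4
            have h5 := rho_spec (hne y hy).1 (hne y hy).2
            rw [h4, Units.val_one, one_mul] at h5
            apply hw
            apply Units.ext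
            rw [Units.val_one]
            linear_combination h5
          · simp only [S, mem_filter, mem_univ, true_and]
            by_contra h6
            apply hy'
            simp only [T, mem_filter, mem_univ, true_and]
            exact h6
        · intro y hy y' hy' hyy
          exact rho_inj hw (hne y hy).1 (hne y hy).2 (hne y' hy').1 (hne y' hy').2 hyy
      rw [card_erase_of_mem h1S] at h3
      have h4 : 0 < S.card := card_pos.mpr ⟨1, h1S⟩
      omega
    obtain ⟨y, hy, hr⟩ := h2
    set r := rho w y with hrdef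
    have hrel : ∀ t, f (t * y) - f t = f (t * r * y) - f (t * r) := fun t =>
      hf.2 t y r (hne y hy).1 (hne y hy).2 (rho_spec (hne y hy).1 (hne y hy).2)
    let f1 : Kˣ → F := fun t => f (t * r) - f t
    have hf1 : Rel w f1 := by
      constructor
      · intro t
        change f (w * t * r) - f (w * t) = f (t * r) - f t
        rw [mul_assoc, hf.1, hf.1]
      · intro t y' r' h3 h4 h5
        change f (t * y' * r) - f (t * y') - (f (t * r) - f t) =
          f (t * r' * y' * r) - f (t * r' * y') - (f (t * r' * r) - f (t * r'))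
        have e1 := hf.2 t y' r' h3 h4 h5
        have e2 := hf.2 (t * r) y' r' h3 h4 h5
        rw [show t * r * y' = t * y' * r by rw [mul_right_comm], show t * r * r' * y' = t * r' * y' * r by
          rw [mul_right_comm t r r', mul_right_comm (t * r') r y'],
          show t * r * r' = t * r' * r by rw [mul_right_comm]] at e2
        linear_combination e2 - e1
    have hconst := ih f1 hf1 ⟨T.erase y, by
      rw [card_erase_of_mem hy]
      have := card_le_card hTT0
      omega, by
      intro s hs t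
      change f (s * t * r) - f (s * t) = f (t * r) - f t
      rw [mem_erase] at hs
      push Not at hs
      by_cases hsy : s = y
      · subst hsy
        have := hrel t
        rw [mul_comm s t, mul_right_comm t s r]
        linear_combination -this
      · have hsT := hs hsy
        have hsS : ∀ t, f (s * t) = f t := by
          by_contra h6
          apply hsT
          simp only [T, mem_filter, mem_univ, true_and]
          exact h6
        rw [mul_assoc, hsS, hsS]⟩
    have hr2 : ¬ ∀ t, f (r * t) = f t := (mem_filter.mp hr).2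
    push Not at hr2
    obtain ⟨t0, ht0⟩ := hr2
    have hne0 : f1 t0 ≠ 0 := by
      change f (t0 * r) - f t0 ≠ 0
      rw [mul_comm]
      exact sub_ne_zero.mpr ht0
    have hsum : ∑ t, f1 t = 0 := by
      change ∑ t, (f (t * r) - f t) = 0
      rw [sum_sub_distrib, sub_eq_zero]
      exact Equiv.sum_comp (Equiv.mulRight r) f
    have hsum2 : ∑ t, f1 t = ((Fintype.card Kˣ : ℕ) : F) * f1 1 := by
      rw [sum_congr rfl (fun t _ => hconst t), sum_const, nsmul_eq_mul, card_univ]
    rw [hsum] at hsum2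
    have h7 := (mul_eq_zero.mp hsum2.symm).resolve_left hcard
    rw [hconst t0, h7] at hne0
    exact hne0 rfl

theorem const_of_rel {w : Kˣ} (hw : w ≠ 1) (hcard : ((Fintype.card Kˣ : ℕ) : F) ≠ 0)
    {f : Kˣ → F} (hf : Rel w f) (t : Kˣ) : f t = f 1 := by
  classical
  exact const_aux hw hcard (univ : Finset Kˣ).card f hf
    ⟨univ, le_rfl, fun s hs => absurd (mem_univ s) hs⟩ t

end Const

section Dirichlet

lemma crt {m₁ m₂ : ℤ} (h : IsCoprime m₁ m₂) (x₁ x₂ : ℤ) : ∃ x, m₁ ∣ x - x₁ ∧ m₂ ∣ x - x₂ := by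
  obtain ⟨r, s, hrs⟩ := h
  refine ⟨x₁ * s * m₂ + x₂ * r * m₁, ⟨(x₂ - x₁) * r, ?_⟩, ⟨(x₁ - x₂) * s, ?_⟩⟩
  · linear_combination x₁ * hrs
  · linear_combination x₂ * hrs

lemma dir {m : ℕ} (hm : m ≠ 0) {x : ℤ} (hx : IsCoprime x (m : ℤ)) (n : ℕ) :
    ∃ q : ℕ, n < q ∧ q.Prime ∧ (m : ℤ) ∣ q - x := by
  have : NeZero m := ⟨hm⟩
  have hu : IsUnit (x : ZMod m) := (ZMod.coe_int_isUnit_iff_isCoprime x m).mpr hx.symm
  obtain ⟨q, hq, hqp, hqx⟩ := Nat.forall_exists_prime_gt_and_eq_mod hu n
  refine ⟨q, hq, hqp, ?_⟩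
  rw [← ZMod.intCast_zmod_eq_zero_iff_dvd]
  push_cast
  rw [hqx, sub_self]

lemma coprime_of_dvd_sub {m x y : ℤ} (h : m ∣ x - y) (hy : IsCoprime y m) : IsCoprime x m := by
  obtain ⟨t, ht⟩ := h
  have : x = y + m * t := by linear_combination ht
  rw [this]
  exact hy.add_mul_left_left t

lemma dir2 {m₁ m₂ : ℕ} (h1 : m₁ ≠ 0) (h2 : m₂ ≠ 0) (hm : IsCoprime (m₁ : ℤ) m₂) {x₁ x₂ : ℤ}
    (hx1 : IsCoprime x₁ (m₁ : ℤ)) (hx2 : IsCoprime x₂ (m₂ : ℤ)) (n : ℕ) :
    ∃ q : ℕ, n < q ∧ q.Prime ∧ (m₁ : ℤ) ∣ q - x₁ ∧ (m₂ : ℤ) ∣ q - x₂ := by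
  obtain ⟨x, hx, hx'⟩ := crt hm x₁ x₂
  have hc : IsCoprime x ((m₁ * m₂ : ℕ) : ℤ) := by
    push_cast
    exact (coprime_of_dvd_sub hx hx1).mul_right (coprime_of_dvd_sub hx' hx2)
  obtain ⟨q, hq, hqp, hqx⟩ := dir (mul_ne_zero h1 h2) hc n
  push_cast at hqx
  refine ⟨q, hq, hqp, ?_, ?_⟩
  · have : (q : ℤ) - x₁ = (q - x) + (x - x₁) := by ring
    rw [this]
    exact dvd_add ((dvd_mul_right _ _).trans hqx) hx
  · have : (q : ℤ) - x₂ = (q - x) + (x - x₂) := by ring
    rw [this]
    exact dvd_add ((dvd_mul_left _ _).trans hqx) hx'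

end Dirichlet

end Pool.Agent.MuW2
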