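import Pool.Agent.MuW2.Const

/-!
Ihara's lemma in characteristic `p` for `Γ₀(N)`, `N` prime to `p`, `p` odd: a function on the orbit
of `0` which is a cocycle for `Γ₀(N)`, periodic, and homogeneous for the multiplication by `p`,
depends only on the denominator.
-/

open Finset

namespace Pool.Agent.MuW2

variable {F : Type} [Field F] {p N : ℕ}

/-- The hypotheses. -/
structure Hyp (p N : ℕ) (ε : DirichletCharacter F N) (β : F) (h : ℚ → F) : Prop where
  hp : p.Prime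
  hN : N ≠ 0
  hpN : p.Coprime N
  hβ : β ≠ 0
  h0 : h 0 = 0
  per : ∀ b d : ℤ, d ≠ 0 → IsCoprime d (N : ℤ) → h ((b : ℚ) / d + 1) = h ((b : ℚ) / d)
  eqv : ∀ a b c d : ℤ, a * d - b * c = 1 → (N : ℤ) ∣ c → ∀ u v : ℤ, v ≠ 0 →
    IsCoprime v (N : ℤ) → d ≠ 0 → c * u + d * v ≠ 0 →
    h (((a * u + b * v : ℤ) : ℚ) / ((c * u + d * v : ℤ) : ℚ)) =
      h ((b : ℚ) / d) + ε d * h ((u : ℚ) / v)
  sc : ∀ u v : ℤ, v ≠ 0 → IsCoprime v (N : ℤ) → h (p * ((u : ℚ) / v)) = β⁻¹ * h ((u : ℚ) / v)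

variable {ε : DirichletCharacter F N} {β : F} {h : ℚ → F}

lemma not_dvd_level' (hp : p.Prime) (hpN : p.Coprime N) : ¬ (p : ℤ) ∣ N := by
  intro h
  have h1 : p ∣ N := by exact_mod_cast h
  exact (hp.coprime_iff_not_dvd.mp hpN) h1

lemma Hyp.per_int (H : Hyp p N ε β h) (b d n : ℤ) (hd : d ≠ 0) (hdN : IsCoprime d (N : ℤ)) :
    h (((b + n * d : ℤ) : ℚ) / d) = h ((b : ℚ) / d) := by
  have hdQ : (d : ℚ) ≠ 0 := by exact_mod_cast hd
  have step : ∀ m : ℤ, h (((b + (m + 1) * d : ℤ) : ℚ) / d) = h (((b + m * d : ℤ) : ℚ) / d) := by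
    intro m
    rw [← H.per (b + m * d) d hd hdN]
    congr 1
    push_cast
    field_simp
    ring
  induction n using Int.induction_on with
  | zero => simp
  | succ n ih => rw [step, ih]
  | pred n ih =>
    rw [← ih, ← step (-(n : ℤ) - 1)]
    congr 4
    ring

lemma Hyp.congr (H : Hyp p N ε β h) {b d n : ℤ} (hd : d ≠ 0) (hdN : IsCoprime d (N : ℤ))
    (hn : d ∣ n - b) : h ((n : ℚ) / d) = h ((b : ℚ) / d) := by
  obtain ⟨m, hm⟩ := hn
  rw [← H.per_int b d m hd hdN]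
  congr 3
  linear_combination hm

lemma Hyp.low (H : Hyp p N ε β h) {b d d' : ℤ} (hd : d ≠ 0) (hd' : d' ≠ 0)
    (hdN : IsCoprime d (N : ℤ)) (hdd : (N : ℤ) * b ∣ d' - d) :
    h ((b : ℚ) / d') = h ((b : ℚ) / d) := by
  obtain ⟨x, hx⟩ := hdd
  have hd2 : d' = N * x * b + 1 * d := by linear_combination hx
  have h1 := H.eqv 1 0 (N * x) 1 (by ring) (dvd_mul_right _ _) b d hd hdN one_ne_zero
    (by rw [← hd2]; exact hd')
  rw [← hd2] at h1
  have e1 : ((0 : ℤ) : ℚ) / ((1 : ℤ) : ℚ) = 0 := by simp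
  have e2 : ε (((1 : ℤ) : ℤ) : ZMod N) = 1 := by
    push_cast
    exact map_one ε
  rw [e1, H.h0, e2, zero_add, one_mul] at h1
  simpa using h1

lemma Hyp.sc_pow (H : Hyp p N ε β h) {u v : ℤ} (hv : v ≠ 0) (hvN : IsCoprime v (N : ℤ)) (j : ℕ) :
    h (((u * (p : ℤ) ^ j : ℤ) : ℚ) / v) = β⁻¹ ^ j * h ((u : ℚ) / v) := by
  induction j with
  | zero => simp
  | succ j ih =>
    rw [pow_succ' β⁻¹, mul_assoc, ← ih, ← H.sc _ _ hv hvN]
    congr 1
    push_cast
    ring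

lemma Hyp.sc_den (H : Hyp p N ε β h) {u v : ℤ} (hv : v ≠ 0) (hvN : IsCoprime v (N : ℤ)) (j : ℕ) :
    h ((u : ℚ) / ((p ^ j * v : ℤ) : ℚ)) = β ^ j * h ((u : ℚ) / v) := by
  have hp0 : (p : ℤ) ≠ 0 := by exact_mod_cast H.hp.ne_zero
  have hpQ : (p : ℚ) ≠ 0 := by exact_mod_cast H.hp.ne_zero
  have hvQ : (v : ℚ) ≠ 0 := by exact_mod_cast hv
  have hpc : IsCoprime ((p : ℤ) ^ j) (N : ℤ) :=
    (Nat.isCoprime_iff_coprime.mpr H.hpN).pow_left
  have h1 := H.sc_pow (u := u) (mul_ne_zero (pow_ne_zero j hp0) hv) (hpc.mul_left hvN) j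
  have e1 : ((u * (p : ℤ) ^ j : ℤ) : ℚ) / ((p ^ j * v : ℤ) : ℚ) = (u : ℚ) / v := by
    push_cast
    field_simp
  rw [e1] at h1
  rw [h1, ← mul_assoc, ← mul_pow, mul_inv_cancel₀ H.hβ, one_pow, one_mul]

lemma exists_order (hp : p.Prime) {m : ℤ} (hm : ¬ (p : ℤ) ∣ m) :
    ∃ J : ℕ, 0 < J ∧ m ∣ (p : ℤ) ^ J - 1 := by
  have hm0 : m ≠ 0 := by
    rintro rfl
    simp at hm
  have hpm : Nat.Coprime p m.natAbs := by
    rw [hp.coprime_iff_not_dvd]
    intro hcon
    exact hm (Int.natCast_dvd.mpr hcon)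
  have htot := Nat.ModEq.pow_totient hpm
  refine ⟨_, Nat.totient_pos.mpr (Int.natAbs_pos.mpr hm0), ?_⟩
  have h3 := (Nat.modEq_iff_dvd.mp htot)
  rw [← Int.natAbs_dvd, ← dvd_neg]
  have h4 : ((m.natAbs : ℕ) : ℤ) ∣ ((1 : ℕ) : ℤ) - ((p ^ Nat.totient m.natAbs : ℕ) : ℤ) := h3
  push_cast at h4 ⊢
  rw [neg_sub]
  exact h4

lemma dvd_pow_mul_sub {m x : ℤ} {J : ℕ} (h : m ∣ x ^ J - 1) (k : ℕ) : m ∣ x ^ (J * k) - 1 := by
  rw [pow_mul]
  have h1 := sub_dvd_pow_sub_pow (x ^ J) 1 k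
  rw [one_pow] at h1
  exact h.trans h1

lemma Hyp.beta_pow (H : Hyp p N ε β h) {b d : ℤ} (hd : d ≠ 0) (hdN : IsCoprime d (N : ℤ))
    (hne : h ((b : ℚ) / d) ≠ 0) : ∃ J : ℕ, 0 < J ∧ β ^ J = 1 := by
  have hp0 : (p : ℤ) ≠ 0 := by exact_mod_cast H.hp.ne_zero
  have hpp : Prime (p : ℤ) := Nat.prime_iff_prime_int.mp H.hp
  have hb0 : b ≠ 0 := by
    rintro rfl
    apply hne
    rw [Int.cast_zero, zero_div, H.h0]
  obtain ⟨s, b', hb', hbb⟩ : ∃ (s : ℕ) (b' : ℤ), ¬ (p : ℤ) ∣ b' ∧ b = b' * (p : ℤ) ^ s := by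
    have hfin : FiniteMultiplicity (p : ℤ) b := by
      apply Int.finiteMultiplicity_iff.mpr
      exact ⟨by simpa using H.hp.ne_one, hb0⟩
    obtain ⟨m, hm1, hm2⟩ := hfin.exists_eq_pow_mul_and_not_dvd
    exact ⟨_, m, hm2, by rw [mul_comm]; exact hm1⟩
  have hne' : h ((b' : ℚ) / d) ≠ 0 := by
    intro hcon
    apply hne
    rw [hbb, H.sc_pow hd hdN, hcon, mul_zero]
  obtain ⟨J, hJ0, hJ⟩ := exists_order H.hp (m := N * b') (by
    intro hcon
    rcases hpp.dvd_or_dvd hcon with h1 | h1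
    · exact not_dvd_level' H.hp H.hpN h1
    · exact hb' h1)
  refine ⟨J, hJ0, ?_⟩
  have h1 := H.sc_den (u := b') hd hdN J
  have h2 := H.low (b := b') (d := d) (d' := p ^ J * d) hd (mul_ne_zero (pow_ne_zero J hp0) hd) hdN (by
    have : (p : ℤ) ^ J * d - d = ((p : ℤ) ^ J - 1) * d := by ring
    rw [this]
    exact hJ.mul_right d)
  rw [h2] at h1
  have h3 : (β ^ J - 1) * h ((b' : ℚ) / d) = 0 := by linear_combination -h1
  exact sub_eq_zero.mp ((mul_eq_zero.mp h3).resolve_right hne')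

/-- The basic relation. -/
lemma Hyp.basic (H : Hyp p N ε β h) {l : ℕ} (hl : l.Prime) {a e k : ℤ} {j : ℕ}
    (hae : (N : ℤ) * l ∣ a * e - 1) (hY : ¬ (l : ℤ) ∣ (p : ℤ) ^ j - N * k * a) :
    β⁻¹ ^ j * h ((l : ℚ) / ((e * ((p : ℤ) ^ j - N * k * a) : ℤ) : ℚ)) =
      h ((l : ℚ) / e) + ε e * h (((N * k * l : ℤ) : ℚ) / (((p : ℤ) ^ j - N * k * a : ℤ) : ℚ)) := by
  have hll : Prime (l : ℤ) := Nat.prime_iff_prime_int.mp hl
  obtain ⟨m, hm⟩ := hae
  obtain ⟨Y, hYd⟩ : ∃ Y : ℤ, Y = (p : ℤ) ^ j - N * k * a := ⟨_, rfl⟩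
  rw [← hYd] at hY ⊢
  have hY0 : Y ≠ 0 := by
    rintro rfl
    exact hY (dvd_zero _)
  have hpc : IsCoprime ((p : ℤ) ^ j) (N : ℤ) :=
    (Nat.isCoprime_iff_coprime.mpr H.hpN).pow_left
  have hYN : IsCoprime Y (N : ℤ) :=
    coprime_of_dvd_sub ⟨-(k * a), by rw [hYd]; ring⟩ hpc
  have heN : IsCoprime e (N : ℤ) := ⟨a, -(l * m), by linear_combination hm⟩
  have hel : ¬ (l : ℤ) ∣ e := by
    intro hcon
    have : (l : ℤ) ∣ 1 := by
      have h2 : (1 : ℤ) = a * e - N * l * m := by linear_combination -hm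
      rw [h2]
      exact dvd_sub (hcon.mul_left _) ⟨N * m, by ring⟩
    exact hll.not_isUnit (isUnit_of_dvd_one this)
  have he0 : e ≠ 0 := by
    rintro rfl
    exact hel (dvd_zero _)
  have hleY : ¬ (l : ℤ) ∣ e * Y := fun hcon => (hll.dvd_or_dvd hcon).elim hel hY
  have heY0 : e * Y ≠ 0 := mul_ne_zero he0 hY0
  have hden : N * m * (N * k * l) + e * Y ≠ 0 := by
    intro hcon
    apply hleY
    have h2 : e * Y = -(N * m * (N * k * l)) := by linear_combination hcon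
    rw [h2, dvd_neg]
    exact ⟨N * m * (N * k), by ring⟩
  have hcop : IsCoprime (N * m * (N * k * l) + e * Y) (N : ℤ) :=
    coprime_of_dvd_sub (y := e * Y) ⟨m * (N * k * l), by ring⟩ (heN.mul_left hYN)
  have h1 := H.eqv a l (N * m) e (by linear_combination hm) (dvd_mul_right _ _) (N * k * l) Y hY0
    hYN he0 hden
  have e1 : a * (N * k * l) + l * Y = l * (p : ℤ) ^ j := by
    rw [hYd]
    ring
  rw [e1, H.sc_pow hden hcop] at h1
  have h2 := H.low (b := (l : ℤ)) (d := e * Y) (d' := N * m * (N * k * l) + e * Y) heY0 hden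
    (heN.mul_left hYN) ⟨m * (N * k), by ring⟩
  rw [h2] at h1
  push_cast at h1 ⊢
  exact h1

/-- The same symbol expressed in two ways. -/
lemma Hyp.twoway (H : Hyp p N ε β h) {l : ℕ} (hl : l.Prime) {a a' e e' k : ℤ} {j : ℕ}
    (hae : (N : ℤ) * l ∣ a * e - 1) (hae' : (N : ℤ) * l ∣ a' * e' - 1)
    (hk : N * k * (a' - a) = (p : ℤ) ^ j - 1) (haa : (N : ℤ) ∣ a' - a) (hβj : β ^ j = 1)
    (hY : ¬ (l : ℤ) ∣ 1 - N * k * a) :
    h ((l : ℚ) / ((e * (1 - N * k * a) : ℤ) : ℚ)) - h ((l : ℚ) / e) =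
      h ((l : ℚ) / ((e' * (1 - N * k * a) : ℤ) : ℚ)) - h ((l : ℚ) / e') := by
  have hY1 : (p : ℤ) ^ 0 - N * k * a = 1 - N * k * a := by rw [pow_zero]
  have hY2 : (p : ℤ) ^ j - N * k * a' = 1 - N * k * a := by linear_combination -hk
  have h1 := H.basic hl (j := 0) hae (by rw [hY1]; exact hY)
  have h2 := H.basic hl (j := j) hae' (by rw [hY2]; exact hY)
  rw [hY1, pow_zero, one_mul] at h1
  rw [hY2, inv_pow, hβj, inv_one, one_mul] at h2
  have he : ((e : ℤ) : ZMod N) = ((e' : ℤ) : ZMod N) := by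
    have q1 : ((a : ℤ) : ZMod N) * e = 1 := by
      have := (ZMod.intCast_zmod_eq_zero_iff_dvd _ N).mpr ((dvd_mul_right _ _).trans hae)
      push_cast at this
      linear_combination this
    have q2 : ((a' : ℤ) : ZMod N) * e' = 1 := by
      have := (ZMod.intCast_zmod_eq_zero_iff_dvd _ N).mpr ((dvd_mul_right _ _).trans hae')
      push_cast at this
      linear_combination this
    have q3 : ((a' : ℤ) : ZMod N) = a := by
      have := (ZMod.intCast_zmod_eq_zero_iff_dvd _ N).mpr haa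
      push_cast at this
      linear_combination this
    rw [q3] at q2
    linear_combination (e' : ZMod N) * q1 - (e : ZMod N) * q2
  rw [he] at h1
  rw [h1, h2]
  ring

lemma isCoprime_natCast_of_not_dvd {l : ℕ} (hl : l.Prime) {x : ℤ} (h : ¬ (l : ℤ) ∣ x) :
    IsCoprime x (l : ℤ) :=
  ((Nat.prime_iff_prime_int.mp hl).coprime_iff_not_dvd.mpr h).symm

lemma zmod_eq_iff {l : ℕ} {x y : ℤ} : ((x : ℤ) : ZMod l) = y ↔ (l : ℤ) ∣ x - y := by
  rw [← ZMod.intCast_zmod_eq_zero_iff_dvd, Int.cast_sub, sub_eq_zero]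

lemma exists_inverse {m e : ℤ} (h : IsCoprime e m) : ∃ a : ℤ, m ∣ a * e - 1 := by
  obtain ⟨a, b, hab⟩ := h
  exact ⟨a, -b, by linear_combination hab⟩

/-- For a large prime `l` the value at `l / D` depends on the class of `D` modulo `N` only. -/
theorem Hyp.numl (H : Hyp p N ε β h) {l J : ℕ} (hl : l.Prime) (hJβ : β ^ J = 1)
    (hJN : (N : ℤ) ^ 2 ∣ (p : ℤ) ^ J - 1) (hJ0 : 0 < J) (hlF : (l : F) ≠ 1) (hlN : N < l)
    (hlJ : p ^ (2 * J) < l) {D D' : ℤ} (hD : IsCoprime D (N : ℤ)) (hDl : ¬ (l : ℤ) ∣ D)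
    (hDl' : ¬ (l : ℤ) ∣ D') (hDD : (N : ℤ) ∣ D - D') :
    h ((l : ℚ) / D) = h ((l : ℚ) / D') := by
  classical
  have : Fact l.Prime := ⟨hl⟩
  have hll : Prime (l : ℤ) := Nat.prime_iff_prime_int.mp hl
  have hp2 := H.hp.two_le
  have hpl : p < l := by
    refine lt_of_le_of_lt ?_ hlJ
    calc p = p ^ 1 := (pow_one p).symm
      _ ≤ p ^ (2 * J) := Nat.pow_le_pow_right (by omega) (by omega)
  have hl2 : 2 < l := by omega
  have hNpos : 0 < N := Nat.pos_of_ne_zero H.hN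
  have hNl : ¬ (l : ℤ) ∣ N := by
    intro hcon
    have h1 : l ∣ N := by exact_mod_cast hcon
    have := Nat.le_of_dvd hNpos h1
    omega
  have hNlc : IsCoprime (N : ℤ) (l : ℤ) := isCoprime_natCast_of_not_dvd hl hNl
  have hNK : ((N : ℤ) : ZMod l) ≠ 0 := by
    intro hcon
    exact hNl ((ZMod.intCast_zmod_eq_zero_iff_dvd _ _).mp hcon)
  have hpK : (p : ZMod l) ≠ 0 := by
    intro hcon
    have h1 := (ZMod.natCast_eq_zero_iff _ _).mp hcon
    have := Nat.le_of_dvd H.hp.pos h1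
    omega
  -- dependence on the class modulo `N l`
  have hcls : ∀ e e' : ℤ, IsCoprime e (N : ℤ) → ¬ (l : ℤ) ∣ e → (N : ℤ) ∣ e' - e →
      (l : ℤ) ∣ e' - e → h ((l : ℚ) / e') = h ((l : ℚ) / e) := by
    intro e e' h1 h2 h3 h4
    have h5 : (N : ℤ) * (l : ℤ) ∣ e' - e := hNlc.mul_dvd h3 h4
    have he0 : e ≠ 0 := by
      rintro rfl
      exact h2 (dvd_zero _)
    have he0' : e' ≠ 0 := by
      rintro rfl
      apply h2
      rw [zero_sub, dvd_neg] at h4
      exact h4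
    have := H.low (b := (l : ℤ)) he0 he0' h1 h5
    push_cast at this
    exact this
  have hch : ∀ t : (ZMod l)ˣ, ∃ e : ℤ, (N : ℤ) ∣ e - D ∧ ((e : ℤ) : ZMod l) = t := by
    intro t
    obtain ⟨x, hx1, hx2⟩ := crt hNlc D ((t : ZMod l).val : ℤ)
    refine ⟨x, hx1, ?_⟩
    rw [← zmod_eq_iff] at hx2
    rw [hx2]
    simp
  choose E hE1 hE2 using hch
  have hEN : ∀ t, IsCoprime (E t) (N : ℤ) := fun t => coprime_of_dvd_sub (hE1 t) hD
  have hEl : ∀ t, ¬ (l : ℤ) ∣ E t := by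
    intro t hcon
    have h1 := (ZMod.intCast_zmod_eq_zero_iff_dvd _ _).mpr hcon
    rw [hE2 t] at h1
    exact t.ne_zero h1
  let f : (ZMod l)ˣ → F := fun t => h ((l : ℚ) / ((E t : ℤ) : ℚ))
  have hf : ∀ (t : (ZMod l)ˣ) (e : ℤ), (N : ℤ) ∣ e - D → ((e : ℤ) : ZMod l) = t →
      h ((l : ℚ) / ((e : ℤ) : ℚ)) = f t := by
    intro t e h1 h2
    apply hcls (E t) e (hEN t) (hEl t)
    · have : e - E t = (e - D) - (E t - D) := by ring
      rw [this]
      exact dvd_sub h1 (hE1 t)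
    · rw [← zmod_eq_iff, h2, hE2]
  have hpu : IsUnit ((p : ZMod l) ^ (2 * J)) := (pow_ne_zero _ hpK).isUnit
  obtain ⟨w, hw⟩ := hpu
  have hw1 : w ≠ 1 := by
    rintro rfl
    rw [Units.val_one] at hw
    have h1 : (((p ^ (2 * J) - 1 : ℕ) : ℕ) : ZMod l) = 0 := by
      rw [Nat.cast_sub (Nat.one_le_pow _ _ (by omega)), Nat.cast_pow, ← hw]
      simp
    rw [ZMod.natCast_eq_zero_iff] at h1
    have h2 : 1 < p ^ (2 * J) := Nat.one_lt_pow (by omega) (by omega)
    have h3 := Nat.le_of_dvd (by omega) h1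
    omega
  have hNJ : ∀ n : ℕ, (N : ℤ) ∣ (p : ℤ) ^ (J * n) - 1 := by
    intro n
    exact (dvd_pow_self _ (by norm_num)).trans (dvd_pow_mul_sub hJN n)
  have hrel : Rel w f := by
    constructor
    · intro t
      rw [← hf (w * t) ((p : ℤ) ^ (2 * J) * E t)]
      · have h1 := H.sc_den (u := (l : ℤ)) (v := E t) (by
          intro hcon
          apply hEl t
          rw [hcon]
          exact dvd_zero _) (hEN t) (2 * J)
        have h2 : β ^ (2 * J) = 1 := by rw [mul_comm, pow_mul, hJβ, one_pow]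
        rw [h2, one_mul] at h1
        push_cast at h1 ⊢
        exact h1
      · have h1 : (p : ℤ) ^ (2 * J) * E t - D = ((p : ℤ) ^ (J * 2) - 1) * E t + (E t - D) := by
          ring
        rw [h1]
        exact dvd_add ((hNJ 2).mul_right _) (hE1 t)
      · push_cast
        rw [hE2, hw]
    · intro t y r hy1 hyw hr
      -- an inverse of `E t` modulo `N l`
      have hENl : IsCoprime (E t) ((N : ℤ) * l) :=
        (hEN t).mul_right (isCoprime_natCast_of_not_dvd hl (hEl t))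
      obtain ⟨a, ha⟩ := exists_inverse hENl
      have haN : IsCoprime a (N : ℤ) := by
        obtain ⟨q, hq⟩ := ha
        exact ⟨E t, -(l * q), by linear_combination hq⟩
      have haK : ((a : ℤ) : ZMod l) * t = 1 := by
        have h1 := (ZMod.intCast_zmod_eq_zero_iff_dvd _ _).mpr ((dvd_mul_left _ _).trans ha)
        push_cast at h1
        rw [hE2] at h1
        linear_combination h1
      have haK0 : ((a : ℤ) : ZMod l) ≠ 0 := left_ne_zero_of_mul_eq_one haK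
      -- the prime `k`
      obtain ⟨x1, hx1⟩ : ∃ x1 : ℤ, ((x1 : ℤ) : ZMod l) * (((N : ℤ) : ZMod l) * ((a : ℤ) : ZMod l)) =
          1 - y := by
        refine ⟨(((1 - (y : ZMod l)) / (((N : ℤ) : ZMod l) * ((a : ℤ) : ZMod l))).val : ℤ), ?_⟩
        have h1 : (((N : ℤ) : ZMod l) * ((a : ℤ) : ZMod l)) ≠ 0 := mul_ne_zero hNK haK0
        rw [Int.cast_natCast, ZMod.natCast_zmod_val, div_mul_cancel₀ _ h1]
      have hx1c : IsCoprime x1 (l : ℤ) := by
        apply isCoprime_natCast_of_not_dvd hl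
        intro hcon
        have h1 := (ZMod.intCast_zmod_eq_zero_iff_dvd _ _).mpr hcon
        rw [h1, zero_mul] at hx1
        exact hy1 (Units.ext (by rw [Units.val_one]; exact (sub_eq_zero.mp hx1.symm).symm))
      have hll1 : IsCoprime (l : ℤ) ((l - 1 : ℕ) : ℤ) := by
        refine ⟨1, -1, ?_⟩
        rw [Nat.cast_sub (by omega)]
        push_cast
        ring
      obtain ⟨k, hkgt, hkp, hkl, hkl1⟩ := dir2 (m₁ := l) (m₂ := l - 1) (by omega) (by omega) hll1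
        (x₁ := x1) (x₂ := -1) hx1c (isCoprime_one_left.neg_left) (N + p)
      have hkK : ((k : ℕ) : ZMod l) * (((N : ℤ) : ZMod l) * ((a : ℤ) : ZMod l)) = 1 - y := by
        rw [← zmod_eq_iff] at hkl
        rw [← hx1, ← hkl]
        push_cast
        rfl
      obtain ⟨j, hj⟩ : ∃ j : ℕ, j = J * ((l - 2) * (k - 1)) := ⟨_, rfl⟩
      have hmod : (l - 2) * (k - 1) ≡ 2 [MOD (l - 1)] := by
        apply Nat.ModEq.symm
        rw [Nat.modEq_iff_dvd]
        obtain ⟨q, hq⟩ := hkl1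
        have h1 : ((l - 1 : ℕ) : ℤ) = l - 1 := by rw [Nat.cast_sub (by omega), Nat.cast_one]
        have h2 : ((l - 2 : ℕ) : ℤ) = l - 2 := by rw [Nat.cast_sub (by omega)]; rfl
        have h3 : ((k - 1 : ℕ) : ℤ) = k - 1 := by
          rw [Nat.cast_sub (by have := hkp.two_le; omega), Nat.cast_one]
        rw [Nat.cast_mul, h1, h2, h3]
        rw [h1] at hq
        refine ⟨(k - 1) - q, ?_⟩
        push_cast
        linear_combination -hq
      have hpj : ((p : ZMod l)) ^ j = w := by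
        rw [hw, hj, mul_comm J, mul_comm 2 J, pow_mul, pow_mul (p : ZMod l) J 2, ← pow_mul,
          mul_comm _ J, pow_mul]
        apply pow_eq_pow_of_modEq hmod
        rw [← pow_mul, mul_comm, pow_mul, ZMod.pow_card_sub_one_eq_one hpK, one_pow]
      have hkpc : Nat.Coprime p k := by
        rw [H.hp.coprime_iff_not_dvd]
        intro hcon
        have := (Nat.prime_dvd_prime_iff_eq H.hp hkp).mp hcon
        omega
      have hkd : (k : ℤ) ∣ (p : ℤ) ^ j - 1 := by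
        have h1 : (k : ℤ) ∣ (p : ℤ) ^ (k - 1) - 1 := by
          have h2 := Nat.ModEq.pow_totient hkpc
          rw [Nat.totient_prime hkp] at h2
          have h3 := Nat.modEq_iff_dvd.mp h2
          push_cast at h3
          rw [← dvd_neg, neg_sub]
          exact h3
        have h2 := dvd_pow_mul_sub h1 (J * (l - 2))
        rw [hj, show J * ((l - 2) * (k - 1)) = (k - 1) * (J * (l - 2)) by ring]
        exact h2
      have hNd : (N : ℤ) ^ 2 ∣ (p : ℤ) ^ j - 1 := by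
        rw [hj]
        exact dvd_pow_mul_sub hJN _
      have hkN : IsCoprime ((N : ℤ) ^ 2) (k : ℤ) := by
        apply IsCoprime.pow_left
        apply isCoprime_natCast_of_not_dvd hkp
        intro hcon
        have h1 : k ∣ N := by exact_mod_cast hcon
        have := Nat.le_of_dvd hNpos h1
        omega
      obtain ⟨m, hm⟩ := hkN.mul_dvd hNd hkd
      obtain ⟨a', ha'⟩ : ∃ a' : ℤ, a' = a + N * m := ⟨_, rfl⟩
      have hkey : (N : ℤ) * k * (a' - a) = (p : ℤ) ^ j - 1 := by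
        rw [ha']
        linear_combination -hm
      have haa : (N : ℤ) ∣ a' - a := ⟨m, by rw [ha']; ring⟩
      have haK' : ((k : ℕ) : ZMod l) * (((N : ℤ) : ZMod l) * ((a' : ℤ) : ZMod l)) = w - y := by
        have h1 : (((N : ℤ) * k * (a' - a) : ℤ) : ZMod l) = (((p : ℤ) ^ j - 1 : ℤ) : ZMod l) := by
          rw [hkey]
        push_cast at h1
        rw [hpj] at h1
        push_cast at hkK ⊢
        linear_combination h1 + hkK
      have hwy : (w : ZMod l) - y ≠ 0 := by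
        intro hcon
        exact hyw (Units.ext (sub_eq_zero.mp hcon).symm)
      have haK0' : ((a' : ℤ) : ZMod l) ≠ 0 := by
        intro hcon
        rw [hcon, mul_zero, mul_zero] at haK'
        exact hwy haK'.symm
      have hal' : ¬ (l : ℤ) ∣ a' := by
        intro hcon
        exact haK0' ((ZMod.intCast_zmod_eq_zero_iff_dvd _ _).mpr hcon)
      have haNl' : IsCoprime a' ((N : ℤ) * l) :=
        (coprime_of_dvd_sub haa haN).mul_right (isCoprime_natCast_of_not_dvd hl hal')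
      obtain ⟨e', he'⟩ := exists_inverse haNl'
      have he'K : ((e' : ℤ) : ZMod l) = (t * r : (ZMod l)ˣ) := by
        have h1 := (ZMod.intCast_zmod_eq_zero_iff_dvd _ _).mpr ((dvd_mul_left _ _).trans he')
        push_cast at h1
        rw [Units.val_mul]
        have h2 : ((a' : ℤ) : ZMod l) * (t * r) = 1 := by
          have h3 : (w : ZMod l) - y ≠ 0 := hwy
          have h4 : ((k : ℕ) : ZMod l) * ((N : ℤ) : ZMod l) ≠ 0 := by
            intro hcon
            rw [← mul_assoc, hcon, zero_mul] at haK'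
            exact hwy haK'.symm
          apply mul_left_cancel₀ h4
          linear_combination (t : ZMod l) * r * haK' + (t : ZMod l) * hr - (t : ZMod l) * hkK +
            ((k : ℕ) : ZMod l) * ((N : ℤ) : ZMod l) * haK
        apply mul_left_cancel₀ haK0'
        linear_combination h1 - h2
      have he'D : (N : ℤ) ∣ e' - D := by
        have h1 : (N : ℤ) ∣ a * e' - 1 := by
          have : a * e' - 1 = (e' * a' - 1) - (a' - a) * e' := by ring
          rw [this]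
          exact dvd_sub ((dvd_mul_right _ _).trans he') (haa.mul_right _)
        have h2 : (N : ℤ) ∣ a * E t - 1 := (dvd_mul_right _ _).trans ha
        have h3 : (N : ℤ) ∣ a * (e' - E t) := by
          have : a * (e' - E t) = (a * e' - 1) - (a * E t - 1) := by ring
          rw [this]
          exact dvd_sub h1 h2
        have h4 := haN.symm.dvd_of_dvd_mul_left h3
        have : e' - D = (e' - E t) + (E t - D) := by ring
        rw [this]
        exact dvd_add h4 (hE1 t)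
      have hYK : ((1 - N * k * a : ℤ) : ZMod l) = y := by
        push_cast at hkK ⊢
        linear_combination -hkK
      have hYl : ¬ (l : ℤ) ∣ 1 - N * k * a := by
        intro hcon
        have h1 := (ZMod.intCast_zmod_eq_zero_iff_dvd _ _).mpr hcon
        rw [hYK] at h1
        exact y.ne_zero h1
      have hβj : β ^ j = 1 := by
        rw [hj, pow_mul, hJβ, one_pow]
      have htw := H.twoway hl (a := a) (a' := a') (e := E t) (e' := e') (k := k) (j := j) ha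
        (by rw [mul_comm a' e']; exact he') hkey haa hβj hYl
      rw [hf t (E t) (hE1 t) (hE2 t), hf (t * r) e' he'D he'K,
        hf (t * y) (E t * (1 - N * k * a)), hf (t * r * y) (e' * (1 - N * k * a))] at htw
      · exact htw
      · have : e' * (1 - N * k * a) - D = (e' - D) - N * (k * a * e') := by ring
        rw [this]
        exact dvd_sub he'D (dvd_mul_right _ _)
      · rw [Int.cast_mul, he'K, hYK, ← Units.val_mul]
      · have : E t * (1 - N * k * a) - D = (E t - D) - N * (k * a * E t) := by ring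
        rw [this]
        exact dvd_sub (hE1 t) (dvd_mul_right _ _)
      · rw [Int.cast_mul, hE2, hYK, ← Units.val_mul]
  have hcard : ((Fintype.card (ZMod l)ˣ : ℕ) : F) ≠ 0 := by
    rw [ZMod.card_units, Nat.cast_sub (by omega), Nat.cast_one]
    exact sub_ne_zero.mpr hlF
  have hconst := const_of_rel hw1 hcard hrel
  have hunit : ∀ e : ℤ, ¬ (l : ℤ) ∣ e → ∃ t : (ZMod l)ˣ, ((e : ℤ) : ZMod l) = t := by
    intro e he
    have h1 : ((e : ℤ) : ZMod l) ≠ 0 := by
      intro hcon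
      exact he ((ZMod.intCast_zmod_eq_zero_iff_dvd _ _).mp hcon)
    exact ⟨Units.mk0 _ h1, rfl⟩
  obtain ⟨t, ht⟩ := hunit D hDl
  obtain ⟨t', ht'⟩ := hunit D' hDl'
  rw [hf t D (by simp) ht, hf t' D' (by rw [← dvd_neg, neg_sub]; exact hDD) ht', hconst t,
    hconst t']

theorem Hyp.main [CharP F p] (hp2 : p ≠ 2) (H : Hyp p N ε β h) (b d : ℤ) (hd : d ≠ 0)
    (hbd : IsCoprime b d) (hdN : IsCoprime d (N : ℤ)) (hpd : ¬ (p : ℤ) ∣ d) :
    h ((b : ℚ) / d) = h ((1 : ℚ) / d) := by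
  have hpp : Prime (p : ℤ) := Nat.prime_iff_prime_int.mp H.hp
  by_contra hne
  obtain ⟨J1, hJ1, hJ1β⟩ : ∃ J : ℕ, 0 < J ∧ β ^ J = 1 := by
    by_cases h1 : h ((b : ℚ) / d) = 0
    · apply H.beta_pow (b := 1) hd hdN
      intro h2
      apply hne
      push_cast at h2
      rw [h1, h2]
    · exact H.beta_pow hd hdN h1
  obtain ⟨J2, hJ2, hJ2N⟩ := exists_order H.hp (m := (N : ℤ) ^ 2) (fun hcon =>
    not_dvd_level' H.hp H.hpN (hpp.dvd_of_dvd_pow hcon))
  obtain ⟨J, hJ⟩ : ∃ J : ℕ, J = J1 * J2 := ⟨_, rfl⟩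
  have hJβ : β ^ J = 1 := by rw [hJ, pow_mul, hJ1β, one_pow]
  have hJN : (N : ℤ) ^ 2 ∣ (p : ℤ) ^ J - 1 := by
    rw [hJ, mul_comm]
    exact dvd_pow_mul_sub hJ2N _
  have hJ0 : 0 < J := by rw [hJ]; exact Nat.mul_pos hJ1 hJ2
  have hdabs : 0 < d.natAbs := Int.natAbs_pos.mpr hd
  obtain ⟨d', hd'gt, hd'p, hd'N⟩ := dir H.hN hdN (N + p + d.natAbs)
  have hd'd : ¬ (d' : ℤ) ∣ d := by
    intro hcon
    have h1 := Int.natAbs_dvd_natAbs.mpr hcon
    rw [Int.natAbs_natCast] at h1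
    have := Nat.le_of_dvd hdabs h1
    omega
  have hd'pc : IsCoprime (d' : ℤ) (p : ℤ) := by
    apply isCoprime_natCast_of_not_dvd H.hp
    intro hcon
    have h1 : p ∣ d' := by exact_mod_cast hcon
    have := (Nat.prime_dvd_prime_iff_eq H.hp hd'p).mp h1
    omega
  obtain ⟨x2, hx2, hx2'⟩ := crt hd'pc 1 (-1)
  have hx2c : IsCoprime x2 ((d' * p : ℕ) : ℤ) := by
    push_cast
    exact (coprime_of_dvd_sub hx2 isCoprime_one_left).mul_right
      (coprime_of_dvd_sub hx2' isCoprime_one_left.neg_left)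
  have hmm : IsCoprime (d.natAbs : ℤ) ((d' * p : ℕ) : ℤ) := by
    push_cast
    exact ((isCoprime_natCast_of_not_dvd hd'p hd'd).mul_right
      (isCoprime_natCast_of_not_dvd H.hp hpd)).abs_left
  have hbc : IsCoprime b (d.natAbs : ℤ) := by
    push_cast
    exact hbd.abs_right
  obtain ⟨l, hlgt, hlp, hlb, hl2⟩ := dir2 (m₁ := d.natAbs) (m₂ := d' * p) (by omega)
    (mul_ne_zero hd'p.ne_zero H.hp.ne_zero) hmm hbc hx2c (N + d' + d.natAbs + p ^ (2 * J))
  have hlb' : d ∣ (l : ℤ) - b := Int.natAbs_dvd.mp hlb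
  have hld' : (d' : ℤ) ∣ (l : ℤ) - 1 := by
    have : (l : ℤ) - 1 = (l - x2) + (x2 - 1) := by ring
    rw [this]
    refine dvd_add (dvd_trans ?_ hl2) hx2
    push_cast
    exact dvd_mul_right _ _
  have hlpd : (p : ℤ) ∣ (l : ℤ) - (-1) := by
    have : (l : ℤ) - (-1) = (l - x2) + (x2 - (-1)) := by ring
    rw [this]
    refine dvd_add (dvd_trans ?_ hl2) hx2'
    push_cast
    exact dvd_mul_left _ _
  have hlF : (l : F) ≠ 1 := by
    intro hcon
    have h1 : (((l : ℤ) - (-1) : ℤ) : F) = 0 := (CharP.intCast_eq_zero_iff F p _).mpr hlpd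
    push_cast at h1
    rw [hcon] at h1
    have h2 : ((2 : ℕ) : F) = 0 := by
      push_cast
      linear_combination h1
    rw [CharP.cast_eq_zero_iff F p] at h2
    exact hp2 ((Nat.prime_dvd_prime_iff_eq H.hp Nat.prime_two).mp h2)
  have hld : ¬ (l : ℤ) ∣ d := by
    intro hcon
    have h1 := Int.natAbs_dvd_natAbs.mpr hcon
    rw [Int.natAbs_natCast] at h1
    have := Nat.le_of_dvd hdabs h1
    omega
  have hldd : ¬ (l : ℤ) ∣ (d' : ℤ) := by
    intro hcon
    have h1 : l ∣ d' := by exact_mod_cast hcon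
    have := Nat.le_of_dvd hd'p.pos h1
    omega
  have hd'0 : (d' : ℤ) ≠ 0 := by exact_mod_cast hd'p.ne_zero
  have hd'Nc : IsCoprime (d' : ℤ) (N : ℤ) := coprime_of_dvd_sub hd'N hdN
  have s1 := H.congr hd hdN hlb'
  have s2 := H.numl (D := d) (D' := (d' : ℤ)) hlp hJβ hJN hJ0 hlF (by omega) (by omega) hdN hld
    hldd (by rw [← dvd_neg, neg_sub]; exact hd'N)
  have s3 := H.congr (b := 1) (d := (d' : ℤ)) (n := (l : ℤ)) hd'0 hd'Nc hld'
  have s4 := H.low (b := 1) (d := d) (d' := (d' : ℤ)) hd hd'0 hdN (by rw [mul_one]; exact hd'N)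
  apply hne
  push_cast at s1 s2 s3 s4 ⊢
  rw [← s1, s2, s3, s4]

/-- Ihara's lemma in characteristic `p`. -/
theorem ihara {F : Type} [Field F] {p N : ℕ} (hp : p.Prime) (hp2 : p ≠ 2) [CharP F p]
    (hN : N ≠ 0) (hpN : p.Coprime N) (ε : DirichletCharacter F N) {β : F} (hβ : β ≠ 0) {h : ℚ → F}
    (h0 : h 0 = 0)
    (hper : ∀ b d : ℤ, d ≠ 0 → IsCoprime d (N : ℤ) → h ((b : ℚ) / d + 1) = h ((b : ℚ) / d))
    (heq : ∀ a b c d : ℤ, a * d - b * c = 1 → (N : ℤ) ∣ c → ∀ u v : ℤ, v ≠ 0 →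
      IsCoprime v (N : ℤ) → d ≠ 0 → c * u + d * v ≠ 0 →
      h (((a * u + b * v : ℤ) : ℚ) / ((c * u + d * v : ℤ) : ℚ)) =
        h ((b : ℚ) / d) + ε d * h ((u : ℚ) / v))
    (hsc : ∀ u v : ℤ, v ≠ 0 → IsCoprime v (N : ℤ) →
      h (p * ((u : ℚ) / v)) = β⁻¹ * h ((u : ℚ) / v)) :
    ∀ b d : ℤ, d ≠ 0 → IsCoprime b d → IsCoprime d (N : ℤ) → ¬ (p : ℤ) ∣ d →
      h ((b : ℚ) / d) = h ((1 : ℚ) / d) := by
  intro b d hd hbd hdN hpd
  exact Hyp.main hp2 (ε := ε) (β := β) ⟨hp, hN, hpN, hβ, h0, hper, heq, hsc⟩ b d hd hbd hdN hpd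

end Pool.Agent.MuW2
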