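import Pool.Agent.MuW2.Stab
import Pool.Agent.MuW2.Ihara

/-!
The conclusion: if the stabilised measure vanishes on `ℤ_pˣ`, then the symbol vanishes on all paths
from a cusp `x` to `γ x` with `γ` in `Γ₁(N)`.
-/

open MvPolynomial OnePoint Finset Pool.Agent.MuSym

namespace Pool.Agent.MuW2

variable {F : Type} [Field F] {p N : ℕ} {ε : DirichletCharacter F N} {a : F}
  {Φ : OnePoint ℚ → OnePoint ℚ → MvPolynomial (Fin 2) F}

variable (hΦ : IsModSym N 0 ε Φ)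
  (hval : ∀ n, 1 ≤ n → ∀ b : ℤ, ¬ (p : ℤ) ∣ b →
    sv Φ ∞ (((b : ℚ) / (p : ℚ) ^ n : ℚ) : OnePoint ℚ) =
      ε p / a * sv Φ ∞ (((b : ℚ) / (p : ℚ) ^ (n - 1) : ℚ) : OnePoint ℚ))

/-- A matrix acting on a fraction. -/
lemma mob_frac {A B C' D u v : ℤ} (hv : v ≠ 0) (h : C' * u + D * v ≠ 0) :
    (C' : ℚ) * ((u : ℚ) / v) + D ≠ 0 ∧
      ((A : ℚ) * ((u : ℚ) / v) + B) / (C' * ((u : ℚ) / v) + D) =
        ((A * u + B * v : ℤ) : ℚ) / ((C' * u + D * v : ℤ) : ℚ) := by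
  have hvQ : (v : ℚ) ≠ 0 := by exact_mod_cast hv
  have hQ : ((C' * u + D * v : ℤ) : ℚ) ≠ 0 := by exact_mod_cast h
  have e1 : (C' : ℚ) * ((u : ℚ) / v) + D = ((C' * u + D * v : ℤ) : ℚ) / v := by
    push_cast
    field_simp
  have e2 : (A : ℚ) * ((u : ℚ) / v) + B = ((A * u + B * v : ℤ) : ℚ) / v := by
    push_cast
    field_simp
  refine ⟨?_, ?_⟩
  · rw [e1]
    exact div_ne_zero hQ hvQ
  · rw [e1, e2, div_div_div_cancel_right₀ hvQ]

include hΦ hval in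
/-- The function `h(x) = φ'(0, x)`: its value at `b / d` depends on `d` only. -/
lemma ph_const (hp : p.Prime) (hp2 : p ≠ 2) [CharP F p] (hN : N ≠ 0) (hpN : ¬ p ∣ N) (ha : a ≠ 0)
    (hT : ∀ x y, heckeT p N ε Φ x y = C a * Φ x y) (b d : ℤ) (hd : d ≠ 0) (hbd : IsCoprime b d)
    (hdN : IsCoprime d (N : ℤ)) (hpd : ¬ (p : ℤ) ∣ d) :
    ph p ε a Φ 0 ((b : ℚ) / d) = ph p ε a Φ 0 ((1 : ℚ) / d) := by
  have hβ : ε p / a ≠ 0 := div_ne_zero (eps_p_ne hp hpN ε) ha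
  have h1 : ph p ε a Φ 0 1 = 0 := by
    have := ph_van hΦ hval hp ha hT 0 1 0 0
    simpa using this
  have h0 : ph p ε a Φ 0 0 = 0 := by
    have := ph_van hΦ hval hp ha hT 0 0 0 0
    simpa using this
  refine ihara (h := fun x => ph p ε a Φ 0 x) hp hp2 hN (hp.coprime_iff_not_dvd.mpr hpN) ε hβ
    h0 ?_ ?_ ?_ b d hd hbd hdN hpd
  · intro b d hd hdN
    have h2 := ph_equiv (p := p) (a := a) hΦ 1 1 0 1 (by ring) (dvd_zero _) 0 ((b : ℚ) / d)
      (by simp) (by simp)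
    have h3 : ph p ε a Φ 1 ((b : ℚ) / d + 1) = ph p ε a Φ 0 ((b : ℚ) / d) := by simpa using h2
    have h4 := ph_add (p := p) (a := a) hΦ 0 1 ((b : ℚ) / d + 1)
    change ph p ε a Φ 0 ((b : ℚ) / d + 1) = ph p ε a Φ 0 ((b : ℚ) / d)
    rw [← h4, h1, zero_add, h3]
  · intro A B C' D hdet hC u v hv hvN hD hCD
    obtain ⟨h2, h3⟩ := mob_frac (A := A) (B := B) hv hCD
    have h4 := ph_equiv (p := p) (a := a) hΦ A B C' D hdet hC 0 ((u : ℚ) / v)
      (by simpa using hD) h2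
    rw [h3, mul_zero, mul_zero, zero_add, zero_add] at h4
    change ph p ε a Φ 0 _ = ph p ε a Φ 0 _ + ε D * ph p ε a Φ 0 _
    rw [← ph_add (p := p) (a := a) hΦ 0 ((B : ℚ) / D) _, h4]
  · intro u v hv hvN
    obtain ⟨β, δ, hδ, hcop, h⟩ := lowest u v hvN hv
    have h2 := ph_scale hΦ hval hp hpN ha hT β δ hδ hcop
    change ph p ε a Φ 0 (p * ((u : ℚ) / v)) = (ε p / a)⁻¹ * ph p ε a Φ 0 ((u : ℚ) / v)
    rw [h, h2, ← mul_assoc, inv_mul_cancel₀ hβ, one_mul]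

include hΦ hval in
/-- The symbol vanishes on the paths from a cusp to its image under an element of `Γ₁(N)`. -/
theorem vanish (hp : p.Prime) (hp2 : p ≠ 2) [CharP F p] (hN : N ≠ 0) (hpN : ¬ p ∣ N) (ha : a ≠ 0)
    (hT : ∀ x y, heckeT p N ε Φ x y = C a * Φ x y) (A B C' D : ℤ) (hdet : A * D - B * C' = 1)
    (hC : (N : ℤ) ∣ C') (hD : (N : ℤ) ∣ D - 1) (x : OnePoint ℚ) :
    Φ x (mob A B C' D x) = 0 := by
  have hpp : Prime (p : ℤ) := Nat.prime_iff_prime_int.mp hp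
  have hεD : ε D = 1 := by
    have h1 : ((D : ℤ) : ZMod N) = 1 := by
      have := (ZMod.intCast_zmod_eq_zero_iff_dvd (D - 1) N).mpr hD
      push_cast at this
      exact sub_eq_zero.mp this
    rw [h1, map_one]
  -- independence of the base point
  have hind : ∀ x y : OnePoint ℚ, sv Φ x (mob A B C' D x) = sv Φ y (mob A B C' D y) := by
    intro x y
    have h1 := sv_equiv hΦ A B C' D hdet hC x y
    rw [hεD, one_mul] at h1
    have h2 := sv_add hΦ x (mob A B C' D x) (mob A B C' D y)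
    have h3 := sv_add hΦ x y (mob A B C' D y)
    rw [h1] at h2
    linear_combination h2 - h3
  apply sv_zero hΦ
  -- a base point whose image has a denominator prime to `p`
  obtain ⟨m, hm⟩ : ∃ m : ℤ, ¬ (p : ℤ) ∣ C' * m + D := by
    by_cases h : (p : ℤ) ∣ D
    · refine ⟨1, fun h2 => ?_⟩
      have h3 : (p : ℤ) ∣ C' := by
        have : C' = (C' * 1 + D) - D := by ring
        rw [this]
        exact dvd_sub h2 h
      apply hpp.not_isUnit
      apply isUnit_of_dvd_one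
      rw [← hdet]
      exact dvd_sub (h.mul_left _) (h3.mul_left _)
    · exact ⟨0, by simpa using h⟩
  set V : ℤ := C' * m + D with hV
  have hV0 : V ≠ 0 := by
    intro h
    rw [h] at hm
    exact hm (dvd_zero _)
  have hVN1 : (N : ℤ) ∣ V - 1 := by
    have : V - 1 = C' * m + (D - 1) := by rw [hV]; ring
    rw [this]
    exact dvd_add (hC.mul_right _) hD
  have hVN : IsCoprime V (N : ℤ) := by
    obtain ⟨k, hk⟩ := hVN1
    exact ⟨1, -k, by linear_combination hk⟩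
  have hUV : IsCoprime (A * m + B) V := ⟨-C', A, by rw [hV]; linear_combination hdet⟩
  have hεV : ε V = 1 := by
    have h1 : ((V : ℤ) : ZMod N) = 1 := by
      have := (ZMod.intCast_zmod_eq_zero_iff_dvd (V - 1) N).mpr hVN1
      push_cast at this
      exact sub_eq_zero.mp this
    rw [h1, map_one]
  rw [hind x ((m : ℚ) : OnePoint ℚ)]
  have hCm : (C' : ℚ) * (m : ℚ) + D ≠ 0 := by
    have : ((V : ℤ) : ℚ) ≠ 0 := by exact_mod_cast hV0
    rw [hV] at this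
    push_cast at this
    exact this
  rw [mob_coe _ _ _ _ hCm]
  have e1 : ((A : ℚ) * m + B) / (C' * m + D) = ((A * m + B : ℤ) : ℚ) / (V : ℚ) := by
    rw [hV]
    push_cast
    rfl
  rw [e1]
  -- the path from `m` to `0`
  have hm0 : sv Φ ((m : ℚ) : OnePoint ℚ) ((0 : ℚ) : OnePoint ℚ) = 0 := by
    have h1 := sv_inf_int hΦ m
    have h2 := sv_add hΦ ∞ ((m : ℚ) : OnePoint ℚ) ((0 : ℚ) : OnePoint ℚ)
    rw [h1] at h2
    linear_combination h2
  have h2 := sv_add hΦ ((m : ℚ) : OnePoint ℚ) ((0 : ℚ) : OnePoint ℚ)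
    ((((A * m + B : ℤ) : ℚ) / (V : ℚ) : ℚ) : OnePoint ℚ)
  rw [hm0, zero_add] at h2
  rw [← h2]
  -- the corrected symbol
  have h3 : ph p ε a Φ 0 (((A * m + B : ℤ) : ℚ) / (V : ℚ)) = 0 := by
    rw [ph_const hΦ hval hp hp2 hN hpN ha hT _ V hV0 hUV hVN hm]
    have hV1 : (V - 1) * 1 + 1 * 1 ≠ 0 := by
      rw [mul_one, mul_one, sub_add_cancel]
      exact hV0
    have h4 := ph_equiv (p := p) (a := a) hΦ 1 0 (V - 1) 1 (by ring) hVN1 0 1 (by simp)
      (by push_cast; rw [mul_one, sub_add_cancel]; exact_mod_cast hV0)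
    have h1 : ph p ε a Φ 0 1 = 0 := by
      have := ph_van hΦ hval hp ha hT 0 1 0 0
      simpa using this
    rw [h1] at h4
    have e2 : (((V - 1 : ℤ) : ℚ)) * 1 + ((1 : ℤ) : ℚ) = V := by
      push_cast
      ring
    rw [e2] at h4
    simpa using h4
  unfold ph at h3
  have h5 : cc p ε a Φ * (ed ε (((A * m + B : ℤ) : ℚ) / (V : ℚ)) - ed ε 0) = 0 := by
    rcases cc_sign (p := p) (a := a) hΦ with h0 | h0
    · rw [h0, zero_mul]
    · have h6 := ed_int ε 0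
      rw [Int.cast_zero] at h6
      rw [ed_eq ε h0 hV0 hUV, hεV, h6, sub_self, mul_zero]
  rw [h5, sub_zero] at h3
  exact h3

/-- **The main theorem.** -/
theorem main (hp : p.Prime) (hp2 : p ≠ 2) [CharP F p] (hN : N ≠ 0) (hpN : ¬ p ∣ N)
    (hΦ : IsModSym N 0 ε Φ) (ha : a ≠ 0) (hT : ∀ x y, heckeT p N ε Φ x y = C a * Φ x y)
    (h1 : ∃ A B C' D : ℤ, A * D - B * C' = 1 ∧ (N : ℤ) ∣ C' ∧ (N : ℤ) ∣ D - 1 ∧
      ∃ x, Φ x (mob A B C' D x) ≠ 0) :
    ∃ i < p - 1, (∀ s, HasSign s Φ → (-1) ^ i = s) ∧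
      ∃ n ≥ 1, ∃ c, branch p (stab p ε a Φ) n i c ≠ 0 := by
  obtain ⟨n, hn, b, hb, hv⟩ : ∃ n, 1 ≤ n ∧ ∃ b : ℤ, ¬ (p : ℤ) ∣ b ∧
      MuSym.val p (stab p ε a Φ) n b ≠ 0 := by
    by_contra hcon
    push Not at hcon
    obtain ⟨A, B, C', D, hdet, hC, hD, x, hx⟩ := h1
    apply hx
    apply vanish hΦ _ hp hp2 hN hpN ha hT A B C' D hdet hC hD x
    intro n hn b hb
    have h2 := hcon n hn b hb
    rw [stab_val hp hΦ hn] at h2
    exact sub_eq_zero.mp h2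
  have hΨ := stab_isModSym (a := a) hp hΦ
  obtain ⟨i, hi, c, hc⟩ := exists_branch hp hΨ hn hb hv
  refine ⟨i, hi, fun s hs => ?_, n, hn, c, hc⟩
  by_contra hcon
  exact hc (branch_parity hp hp2 hΨ (stab_hasSign hΦ hs) hcon c)

end Pool.Agent.MuW2
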