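import Pool.Agent.MuW2.Final

/-!
All weights and all levels: the branches of the `p`-stabilised measure of an ordinary eigensymbol.
-/

open MvPolynomial OnePoint Finset Pool.Agent.MuSym

namespace Pool.Agent.MuW2

variable {F : Type} [Field F] {p N g : ℕ} {ε : DirichletCharacter F N} {a : F}
  {Φ : OnePoint ℚ → OnePoint ℚ → MvPolynomial (Fin 2) F}

/-- In weight at least three, or at a level divisible by `p`, the stabilisation has the same
values as the symbol. -/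
lemma stab_val_eq (hp : p.Prime) [CharP F p] (hΦ : IsModSym N g ε Φ) (hg : 1 ≤ g ∨ p ∣ N) (n : ℕ)
    (b : ℤ) : MuSym.val p (stab p ε a Φ) n b = MuSym.val p Φ n b := by
  unfold MuSym.val stab
  rw [map_sub, map_mul, eval_C, eval_act]
  have h1 : eval ![((1 : ℤ) : F) * 0 + ((0 : ℤ) : F) * 1,
      ((0 : ℤ) : F) * 0 + (((p : ℕ) : ℤ) : F) * 1]
      (Φ (mob p 0 0 1 ∞) (mob p 0 0 1 ((b / p ^ n : ℚ) : OnePoint ℚ))) =
      0 ^ g * eval ![0, 1] (Φ (mob p 0 0 1 ∞) (mob p 0 0 1 ((b / p ^ n : ℚ) : OnePoint ℚ))) := by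
    rw [← eval_smul_homog (hΦ.homog _ _)]
    congr 2
    simp
  rw [h1]
  have h2 := eps_pow hp ε hg
  have h3 : ε p / a * (0 ^ g * eval ![0, 1] (Φ (mob p 0 0 1 ∞)
      (mob p 0 0 1 ((b / p ^ n : ℚ) : OnePoint ℚ)))) =
      ε p * 0 ^ g / a * eval ![0, 1] (Φ (mob p 0 0 1 ∞)
      (mob p 0 0 1 ((b / p ^ n : ℚ) : OnePoint ℚ))) := by ring
  rw [h3, h2, zero_div, zero_mul, sub_zero]

lemma stab_branch_eq (hp : p.Prime) [CharP F p] (hΦ : IsModSym N g ε Φ) (hg : 1 ≤ g ∨ p ∣ N)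
    (n i : ℕ) (c : ZMod (p ^ n)) : branch p (stab p ε a Φ) n i c = branch p Φ n i c := by
  unfold branch
  refine sum_congr rfl fun b _ => ?_
  rw [stab_val_eq hp hΦ hg]

/-- **The theorem**, for all weights at least two and all levels. -/
theorem merged (hp : p.Prime) [CharP F p] (hN : N ≠ 0) (hΦ : IsModSym N g ε Φ) (ha : a ≠ 0)
    (hT : ∀ x y, heckeT p N ε Φ x y = C a * Φ x y) (hB : ¬ IsBoundary N g ε Φ)
    (h2 : g = 0 → ¬ p ∣ N → p ≠ 2 ∧ ∃ A B C' D : ℤ, A * D - B * C' = 1 ∧ (N : ℤ) ∣ C' ∧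
      (N : ℤ) ∣ D - 1 ∧ ∃ x, Φ x (mob A B C' D x) ≠ 0) :
    ∃ i < p - 1, (∀ s, HasSign s Φ → (-1) ^ i = s) ∧
      ∃ n ≥ 1, ∃ c, branch p (stab p ε a Φ) n i c ≠ 0 := by
  by_cases hg : 1 ≤ g ∨ p ∣ N
  · simp only [stab_branch_eq hp hΦ hg]
    obtain ⟨n, hn, b, hb, hv⟩ : ∃ n, 1 ≤ n ∧ ∃ b : ℤ, ¬ (p : ℤ) ∣ b ∧ MuSym.val p Φ n b ≠ 0 := by
      by_contra hcon
      push Not at hcon
      exact hB (boundary_of_val hΦ hcon hp hN hg ha hT)
    obtain ⟨i, hi, c, hc⟩ := exists_branch hp hΦ hn hb hv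
    refine ⟨i, hi, fun s hs => ?_, n, hn, c, hc⟩
    by_cases hp2 : p = 2
    · subst hp2
      have hi0 : i = 0 := by omega
      have h1 := val_neg (p := 2) hs n b
      have h2 := val_neg (p := 2) hs n (-b)
      rw [neg_neg, h1, ← mul_assoc] at h2
      have h4 : (s * s - 1) * MuSym.val 2 Φ n b = 0 := by linear_combination -h2
      have h5 := (mul_eq_zero.mp h4).resolve_right hv
      have h6 : (2 : F) = 0 := by exact_mod_cast CharP.cast_eq_zero F 2
      have h3 : (s - 1) ^ 2 = 0 := by linear_combination h5 + (1 - s) * h6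
      rw [hi0, pow_zero]
      have h7 : s - 1 = 0 := by simpa using h3
      linear_combination -h7
    · by_contra hcon
      exact hc (branch_parity hp hp2 hΦ hs hcon c)
  · push Not at hg
    have hg0 : g = 0 := by omega
    obtain ⟨hp2, h3⟩ := h2 hg0 hg.2
    subst hg0
    exact main hp hp2 hN hg.2 hΦ ha hT h3

end Pool.Agent.MuW2
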