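import Pool.Agent.MuSym.Final

/-!
The reduction in weight two, at a level prime to `p`: from a `T_p`-eigensymbol whose
`p`-stabilised measure vanishes on `ℤ_pˣ` to a function `h` on the cusps with denominators prime
to `N` which is equivariant under `Γ₀(N)` and under `x ↦ p x`.
-/

open MvPolynomial OnePoint Finset Pool.Agent.MuSym

namespace Pool.Agent.MuW2

variable {F : Type} [Field F] {p N : ℕ} {ε : DirichletCharacter F N} {a : F}
  {Φ : OnePoint ℚ → OnePoint ℚ → MvPolynomial (Fin 2) F}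

/-- A form of degree zero is constant. -/
lemma eval_homog_zero {P : MvPolynomial (Fin 2) F} (hP : P.IsHomogeneous 0) (w w' : Fin 2 → F) :
    eval w P = eval w' P := by
  have h : P = C (coeff 0 P) := by
    rw [← totalDegree_eq_zero_iff_eq_C]
    exact Nat.le_zero.mp hP.totalDegree_le
  rw [h, eval_C, eval_C]

/-- The scalar value of a symbol of weight two. -/
noncomputable def sv (Φ : OnePoint ℚ → OnePoint ℚ → MvPolynomial (Fin 2) F) (x y : OnePoint ℚ) :
    F := eval ![0, 1] (Φ x y)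

lemma sv_eq (hΦ : IsModSym N 0 ε Φ) (x y : OnePoint ℚ) (u v : F) :
    eval ![u, v] (Φ x y) = sv Φ x y := eval_homog_zero (hΦ.homog x y) _ _

lemma sv_zero (hΦ : IsModSym N 0 ε Φ) {x y : OnePoint ℚ} (h : sv Φ x y = 0) : Φ x y = 0 := by
  have h1 : Φ x y = C (coeff 0 (Φ x y)) := by
    rw [← totalDegree_eq_zero_iff_eq_C]
    exact Nat.le_zero.mp (hΦ.homog x y).totalDegree_le
  unfold sv at h
  rw [h1, eval_C] at h
  rw [h1, h, C_0]

lemma sv_add (hΦ : IsModSym N 0 ε Φ) (x y z : OnePoint ℚ) : sv Φ x y + sv Φ y z = sv Φ x z :=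
  f_add hΦ x y z 0 1

lemma sv_equiv (hΦ : IsModSym N 0 ε Φ) (A B C' D : ℤ) (h : A * D - B * C' = 1)
    (hc : (N : ℤ) ∣ C') (x y : OnePoint ℚ) :
    sv Φ (mob A B C' D x) (mob A B C' D y) = ε D * sv Φ x y := by
  unfold sv
  rw [f_equiv hΦ A B C' D h hc, sv_eq hΦ]
  rfl

lemma sv_T [CharP F p] (hΦ : IsModSym N 0 ε Φ)
    (hT : ∀ x y, heckeT p N ε Φ x y = C a * Φ x y) (x y : OnePoint ℚ) :
    a * sv Φ x y = ∑ j ∈ range p, sv Φ (mob 1 j 0 p x) (mob 1 j 0 p y) +
      ε p * sv Φ (mob p 0 0 1 x) (mob p 0 0 1 y) := by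
  have h := f_T hΦ hT x y 0 1
  simp only [pow_zero, one_mul] at h
  rw [sv_eq hΦ _ _ 1 0] at h
  exact h

lemma sv_T_fin (hp : p.Prime) [CharP F p] (hΦ : IsModSym N 0 ε Φ)
    (hT : ∀ x y, heckeT p N ε Φ x y = C a * Φ x y) (x y : ℚ) :
    a * sv Φ (x : OnePoint ℚ) (y : OnePoint ℚ) =
      ∑ j ∈ range p, sv Φ (((x + j) / p : ℚ) : OnePoint ℚ) (((y + j) / p : ℚ) : OnePoint ℚ) +
      ε p * sv Φ ((p * x : ℚ) : OnePoint ℚ) ((p * y : ℚ) : OnePoint ℚ) := by
  rw [sv_T hΦ hT, mob_low, mob_low]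
  congr 1
  apply sum_congr rfl
  intro j _
  rw [mob_up hp, mob_up hp]

lemma sv_T_inf (hp : p.Prime) [CharP F p] (hΦ : IsModSym N 0 ε Φ)
    (hT : ∀ x y, heckeT p N ε Φ x y = C a * Φ x y) (y : ℚ) :
    a * sv Φ ∞ (y : OnePoint ℚ) =
      ∑ j ∈ range p, sv Φ ∞ (((y + j) / p : ℚ) : OnePoint ℚ) +
      ε p * sv Φ ∞ ((p * y : ℚ) : OnePoint ℚ) := by
  rw [sv_T hΦ hT, mob_infty_zero, mob_low]
  congr 1
  apply sum_congr rfl
  intro j _
  rw [mob_infty_zero, mob_up hp]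

/-- `p` is a unit modulo `N`. -/
lemma eps_p_ne (hp : p.Prime) (hpN : ¬ p ∣ N) (ε : DirichletCharacter F N) : ε p ≠ 0 := by
  have hu : IsUnit (p : ZMod N) := by
    rw [ZMod.isUnit_iff_coprime]
    exact hp.coprime_iff_not_dvd.mpr hpN
  exact (hu.map ε).ne_zero

/-- The function `ε(den x)`. -/
noncomputable def ed (ε : DirichletCharacter F N) (r : ℚ) : F := ε ((r.den : ℕ) : ZMod N)

lemma ed_eq_Bq (ε : DirichletCharacter F N) (r : ℚ) (u v : F) : ed ε r = Bq ε 0 r u v := by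
  simp [ed, Bq]

lemma ed_pos (ε : DirichletCharacter F N) {U V : ℤ} (hV : 0 < V) (h : IsCoprime U V) :
    ed ε ((U : ℚ) / V) = ε (V : ℤ) := by
  rw [ed_eq_Bq ε _ 0 1, Bq_pos ε 0 hV h, pow_zero, mul_one]

lemma ed_eq (ε : DirichletCharacter F N) (hε : ε (-1) = 1) {U V : ℤ} (hV : V ≠ 0)
    (h : IsCoprime U V) : ed ε ((U : ℚ) / V) = ε (V : ℤ) := by
  rw [ed_eq_Bq ε _ 0 1, Bq_eq ε 0 (by simpa using hε) hV h, pow_zero, mul_one]

lemma ed_equiv (ε : DirichletCharacter F N) (hε : ε (-1) = 1) {A B C' D : ℤ}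
    (hdet : A * D - B * C' = 1) (hN : (N : ℤ) ∣ C') {r : ℚ} (hr : (C' : ℚ) * r + D ≠ 0) :
    ed ε ((A * r + B) / (C' * r + D)) = ε (D : ℤ) * ed ε r := by
  have h := Bq_equiv ε 0 (by simpa using hε) hdet hN hr 0 1
  rw [← ed_eq_Bq, ← ed_eq_Bq] at h
  exact h

lemma ed_frac (hp : p.Prime) (ε : DirichletCharacter F N) {b : ℤ} (hb : ¬ (p : ℤ) ∣ b) (n : ℕ) :
    ed ε ((b : ℚ) / (p : ℚ) ^ n) = ε p ^ n := by
  have hpp : Prime (p : ℤ) := Nat.prime_iff_prime_int.mp hp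
  have hcop : IsCoprime b ((p : ℤ) ^ n) :=
    (((Prime.coprime_iff_not_dvd hpp).mpr hb).symm).pow_right
  have hpos : (0 : ℤ) < (p : ℤ) ^ n := pow_pos (by exact_mod_cast hp.pos) _
  have h := ed_pos ε hpos hcop
  push_cast at h
  rw [h, map_pow]

lemma ed_int (ε : DirichletCharacter F N) (b : ℤ) : ed ε (b : ℚ) = 1 := by
  have h := ed_pos ε (U := b) (V := 1) one_pos isCoprime_one_right
  simpa using h

/-- `T_p` acts on the boundary function by `1`, in characteristic `p`. -/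
lemma ed_T (hp : p.Prime) [CharP F p] (ε : DirichletCharacter F N) (r : ℚ) :
    ed ε r = ∑ j ∈ range p, ed ε ((r + j) / p) + ε p * ed ε (p * r) := by
  have hpp : Prime (p : ℤ) := Nat.prime_iff_prime_int.mp hp
  have hp0 : (p : ℤ) ≠ 0 := by exact_mod_cast hp.ne_zero
  have hpQ : (p : ℚ) ≠ 0 := by exact_mod_cast hp.ne_zero
  have hppos : (0 : ℤ) < p := by exact_mod_cast hp.pos
  obtain ⟨U, V, hV, hUV, rfl⟩ : ∃ U V : ℤ, 0 < V ∧ IsCoprime U V ∧ r = (U : ℚ) / V := by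
    refine ⟨r.num, (r.den : ℤ), by exact_mod_cast r.den_pos, ?_, ?_⟩
    · rw [Int.isCoprime_iff_nat_coprime]
      simpa using r.reduced
    · push_cast
      exact (Rat.num_div_den r).symm
  have hVQ : (V : ℚ) ≠ 0 := by exact_mod_cast hV.ne'
  have e1 : ∀ j : ℕ, ((U : ℚ) / V + j) / p = ((U + j * V : ℤ) : ℚ) / ((p * V : ℤ) : ℚ) := by
    intro j
    push_cast
    field_simp
  have hUj : ∀ j : ℤ, IsCoprime (U + j * V) V := fun j => hUV.add_mul_right_left j
  have hpV : (0 : ℤ) < p * V := mul_pos hppos hV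
  rw [ed_pos ε hV hUV]
  by_cases hdvd : (p : ℤ) ∣ V
  · obtain ⟨V', hV'⟩ := hdvd
    have hV'pos : 0 < V' := by
      rw [hV'] at hV
      exact (mul_pos_iff_of_pos_left hppos).mp hV
    have h1 : ∀ j ∈ range p, ed ε (((U : ℚ) / V + j) / p) = ε ((p * V : ℤ) : ZMod N) := by
      intro j _
      rw [e1]
      apply ed_pos ε hpV
      apply IsCoprime.mul_right _ (hUj j)
      have := hUj j
      rw [hV'] at this ⊢
      exact this.of_mul_right_left
    have h2 : (p : ℚ) * ((U : ℚ) / V) = (U : ℚ) / V' := by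
      rw [hV']
      push_cast
      field_simp
    have h3 : IsCoprime U V' := by
      rw [hV'] at hUV
      exact hUV.of_mul_right_right
    rw [sum_congr rfl h1, h2, ed_pos ε hV'pos h3, sum_const, card_range, nsmul_eq_mul,
      CharP.cast_eq_zero F p, zero_mul, zero_add, hV']
    push_cast
    rw [map_mul]
  · have hpVc : IsCoprime (p : ℤ) V := (Prime.coprime_iff_not_dvd hpp).mpr hdvd
    -- the exceptional index
    obtain ⟨j0, hj0, hj0d⟩ : ∃ j0 ∈ range p, (p : ℤ) ∣ U + (j0 : ℕ) * V := by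
      obtain ⟨s, t, hst⟩ := hpVc
      refine ⟨((-U * t) % (p : ℤ)).toNat, ?_, ?_⟩
      · rw [mem_range]
        have h1 := Int.emod_lt_of_pos (-U * t) hppos
        have h2 := Int.emod_nonneg (-U * t) hp0
        omega
      · have h2 := Int.emod_nonneg (-U * t) hp0
        rw [Int.toNat_of_nonneg h2]
        have h3 := Int.emod_add_mul_ediv (-U * t) p
        refine ⟨-((-U * t) / p) * V + U * s, ?_⟩
        linear_combination V * h3 - U * hst
    obtain ⟨U', hU'⟩ := hj0d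
    have h0 : ed ε (((U : ℚ) / V + (j0 : ℕ)) / p) = ε ((V : ℤ) : ZMod N) := by
      rw [e1, hU']
      have : (((p : ℤ) * U' : ℤ) : ℚ) / ((p * V : ℤ) : ℚ) = (U' : ℚ) / V := by
        push_cast
        field_simp
      rw [this]
      apply ed_pos ε hV
      have := hUj (j0 : ℤ)
      rw [hU'] at this
      exact this.of_mul_left_right
    have h1 : ∀ j ∈ (range p).erase j0, ed ε (((U : ℚ) / V + j) / p) =
        ε ((p * V : ℤ) : ZMod N) := by
      intro j hj
      rw [mem_erase, mem_range] at hj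
      rw [e1]
      apply ed_pos ε hpV
      apply IsCoprime.mul_right _ (hUj j)
      rw [isCoprime_comm, Prime.coprime_iff_not_dvd hpp]
      intro hcon
      have h4 : (p : ℤ) ∣ ((j : ℤ) - j0) * V := by
        have : ((j : ℤ) - j0) * V = (U + j * V) - (U + j0 * V) := by ring
        rw [this]
        exact dvd_sub hcon ⟨U', hU'⟩
      rcases hpp.dvd_or_dvd h4 with h5 | h5
      · have h6 := Int.eq_zero_of_abs_lt_dvd h5 (by
          rw [mem_range] at hj0
          rw [abs_lt]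
          constructor <;> omega)
        apply hj.1
        omega
      · exact hdvd h5
    have h2 : (p : ℚ) * ((U : ℚ) / V) = ((p * U : ℤ) : ℚ) / V := by
      push_cast
      ring
    have h3 : IsCoprime ((p : ℤ) * U) V := IsCoprime.mul_left hpVc hUV
    rw [← add_sum_erase (range p) _ hj0, h0, sum_congr rfl h1, h2, ed_pos ε hV h3, sum_const,
      card_erase_of_mem hj0, card_range, nsmul_eq_mul, Nat.cast_sub hp.one_le,
      CharP.cast_eq_zero F p]
    push_cast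
    rw [map_mul]
    ring

/-! ### The vanishing of the stabilised measure -/

section Vanishing

variable (hΦ : IsModSym N 0 ε Φ)
  (hval : ∀ n, 1 ≤ n → ∀ b : ℤ, ¬ (p : ℤ) ∣ b →
    sv Φ ∞ (((b : ℚ) / (p : ℚ) ^ n : ℚ) : OnePoint ℚ) =
      ε p / a * sv Φ ∞ (((b : ℚ) / (p : ℚ) ^ (n - 1) : ℚ) : OnePoint ℚ))

include hΦ in
lemma sv_transl (x y : ℚ) (S : ℤ) :
    sv Φ ((x + S : ℚ) : OnePoint ℚ) ((y + S : ℚ) : OnePoint ℚ) =
      sv Φ (x : OnePoint ℚ) (y : OnePoint ℚ) := by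
  have h := sv_equiv hΦ 1 S 0 1 (by ring) (dvd_zero _) (x : OnePoint ℚ) (y : OnePoint ℚ)
  rw [mob_coe _ _ _ _ (by simp), mob_coe _ _ _ _ (by simp)] at h
  simpa using h

include hΦ in
lemma sv_inf_transl (y : ℚ) (S : ℤ) :
    sv Φ ∞ ((y + S : ℚ) : OnePoint ℚ) = sv Φ ∞ (y : OnePoint ℚ) := by
  have h := sv_equiv hΦ 1 S 0 1 (by ring) (dvd_zero _) ∞ (y : OnePoint ℚ)
  rw [mob_infty_zero, mob_coe _ _ _ _ (by simp)] at h
  simpa using h

include hΦ in
lemma sv_inf_int (S : ℤ) : sv Φ ∞ ((S : ℚ) : OnePoint ℚ) = sv Φ ∞ ((0 : ℚ) : OnePoint ℚ) := by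
  have h := sv_inf_transl hΦ 0 S
  rwa [zero_add] at h

include hΦ hval in
lemma sv_frac {b : ℤ} (hb : ¬ (p : ℤ) ∣ b) (n : ℕ) :
    sv Φ ∞ (((b : ℚ) / (p : ℚ) ^ n : ℚ) : OnePoint ℚ) =
      (ε p / a) ^ n * sv Φ ∞ ((0 : ℚ) : OnePoint ℚ) := by
  induction n with
  | zero => rw [pow_zero, div_one, pow_zero, one_mul, sv_inf_int hΦ]
  | succ n ih =>
    rw [hval (n + 1) (by omega) b hb, Nat.add_sub_cancel, ih, pow_succ]
    ring

include hΦ hval in
lemma c0_rel (hp : p.Prime) [CharP F p] (ha : a ≠ 0)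
    (hT : ∀ x y, heckeT p N ε Φ x y = C a * Φ x y) :
    (a - 1) * (a - ε p) * sv Φ ∞ ((0 : ℚ) : OnePoint ℚ) = 0 := by
  have hpQ : (p : ℚ) ≠ 0 := by exact_mod_cast hp.ne_zero
  have h := sv_T_inf hp hΦ hT 0
  have h1 : ∀ j ∈ (range p).erase 0, sv Φ ∞ (((0 + (j : ℚ)) / p : ℚ) : OnePoint ℚ) =
      ε p / a * sv Φ ∞ ((0 : ℚ) : OnePoint ℚ) := by
    intro j hj
    rw [mem_erase, mem_range] at hj
    have hj1 : ¬ (p : ℤ) ∣ (j : ℤ) := by
      intro hcon
      have := Int.natCast_dvd_natCast.mp hcon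
      exact absurd (Nat.le_of_dvd (Nat.pos_of_ne_zero hj.1) this) (by omega)
    have h2 := sv_frac hΦ hval hj1 1
    rw [pow_one, pow_one] at h2
    rw [← h2]
    push_cast
    rw [zero_add]
  rw [← add_sum_erase (range p) _ (mem_range.mpr hp.pos), sum_congr rfl h1, sum_const,
    card_erase_of_mem (mem_range.mpr hp.pos), card_range, nsmul_eq_mul, Nat.cast_sub hp.one_le,
    CharP.cast_eq_zero F p, Nat.cast_zero, zero_add, zero_div, mul_zero, Nat.cast_one] at h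
  field_simp at h
  linear_combination h

/-- The constant of the boundary symbol which is subtracted. -/
noncomputable def cc (p : ℕ) (ε : DirichletCharacter F N) (a : F)
    (Φ : OnePoint ℚ → OnePoint ℚ → MvPolynomial (Fin 2) F) : F :=
  open Classical in if a = ε p then 0 else sv Φ ∞ ((0 : ℚ) : OnePoint ℚ)

include hΦ hval in
lemma cc_rel (hp : p.Prime) [CharP F p] (ha : a ≠ 0)
    (hT : ∀ x y, heckeT p N ε Φ x y = C a * Φ x y) : (a - 1) * cc p ε a Φ = 0 := by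
  classical
  unfold cc
  split_ifs with h
  · rw [mul_zero]
  · have h1 := c0_rel hΦ hval hp ha hT
    have h2 : a - ε p ≠ 0 := sub_ne_zero.mpr h
    rcases mul_eq_zero.mp h1 with h3 | h3
    · rcases mul_eq_zero.mp h3 with h4 | h4
      · rw [h4, zero_mul]
      · exact absurd h4 h2
    · rw [h3, mul_zero]

include hΦ in
lemma cc_sign : cc p ε a Φ = 0 ∨ ε (-1) = 1 := by
  classical
  rcases sign_cond hΦ with h | h
  · left
    unfold cc
    split_ifs
    · rfl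
    · exact h
  · right
    simpa using h

/-- The corrected symbol, on the finite cusps. -/
noncomputable def ph (p : ℕ) (ε : DirichletCharacter F N) (a : F)
    (Φ : OnePoint ℚ → OnePoint ℚ → MvPolynomial (Fin 2) F) (x y : ℚ) : F :=
  sv Φ (x : OnePoint ℚ) (y : OnePoint ℚ) - cc p ε a Φ * (ed ε y - ed ε x)

include hΦ in
lemma ph_add (x y z : ℚ) : ph p ε a Φ x y + ph p ε a Φ y z = ph p ε a Φ x z := by
  unfold ph
  rw [← sv_add hΦ (x : OnePoint ℚ) (y : OnePoint ℚ) (z : OnePoint ℚ)]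
  ring

include hΦ in
lemma ph_equiv (A B C' D : ℤ) (hdet : A * D - B * C' = 1) (hN : (N : ℤ) ∣ C') (x y : ℚ)
    (hx : (C' : ℚ) * x + D ≠ 0) (hy : (C' : ℚ) * y + D ≠ 0) :
    ph p ε a Φ ((A * x + B) / (C' * x + D)) ((A * y + B) / (C' * y + D)) =
      ε D * ph p ε a Φ x y := by
  unfold ph
  have h := sv_equiv hΦ A B C' D hdet hN (x : OnePoint ℚ) (y : OnePoint ℚ)
  rw [mob_coe _ _ _ _ hx, mob_coe _ _ _ _ hy] at h
  rw [h]
  rcases cc_sign (p := p) (a := a) hΦ with h0 | h0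
  · rw [h0]; ring
  · rw [ed_equiv ε h0 hdet hN hx, ed_equiv ε h0 hdet hN hy]
    ring

include hΦ hval in
lemma ph_T (hp : p.Prime) [CharP F p] (ha : a ≠ 0)
    (hT : ∀ x y, heckeT p N ε Φ x y = C a * Φ x y) (x y : ℚ) :
    a * ph p ε a Φ x y = ∑ j ∈ range p, ph p ε a Φ ((x + j) / p) ((y + j) / p) +
      ε p * ph p ε a Φ (p * x) (p * y) := by
  unfold ph
  have h1 := sv_T_fin hp hΦ hT x y
  have h2 := ed_T hp ε x
  have h3 := ed_T hp ε y
  have h4 := cc_rel hΦ hval hp ha hT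
  rw [sum_sub_distrib, ← mul_sum, sum_sub_distrib]
  linear_combination h1 + cc p ε a Φ * h2 - cc p ε a Φ * h3 - (ed ε y - ed ε x) * h4

include hΦ hval in
lemma ph_van (hp : p.Prime) [CharP F p] (ha : a ≠ 0)
    (hT : ∀ x y, heckeT p N ε Φ x y = C a * Φ x y) (S S' : ℤ) (i i' : ℕ) :
    ph p ε a Φ ((S : ℚ) / (p : ℚ) ^ i) ((S' : ℚ) / (p : ℚ) ^ i') = 0 := by
  have hpQ : (p : ℚ) ≠ 0 := by exact_mod_cast hp.ne_zero
  -- the value on the path from infinity is a constant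
  have key : ∀ (i : ℕ) (S : ℤ), sv Φ ∞ (((S : ℚ) / (p : ℚ) ^ i : ℚ) : OnePoint ℚ) -
      cc p ε a Φ * ed ε ((S : ℚ) / (p : ℚ) ^ i) =
      sv Φ ∞ ((0 : ℚ) : OnePoint ℚ) - cc p ε a Φ := by
    intro i
    induction i with
    | zero =>
      intro S
      rw [pow_zero, div_one, sv_inf_int hΦ, ed_int, mul_one]
    | succ i ih =>
      intro S
      by_cases hS : (p : ℤ) ∣ S
      · obtain ⟨S', rfl⟩ := hS
        have h1 : ((((p : ℤ) * S' : ℤ) : ℚ) / (p : ℚ) ^ (i + 1) : ℚ) =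
            (S' : ℚ) / (p : ℚ) ^ i := by
          push_cast
          field_simp
          ring
        rw [h1, ih]
      · rw [sv_frac hΦ hval hS, ed_frac hp ε hS]
        classical
        have h2 := cc_rel hΦ hval hp ha hT
        unfold cc at h2 ⊢
        split_ifs with h
        · rw [← h, div_self ha, one_pow]
          ring
        · rw [if_neg h] at h2
          rcases mul_eq_zero.mp h2 with h3 | h3
          · have h4 : a = 1 := sub_eq_zero.mp h3
            rw [h4, div_one]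
            ring
          · rw [h3]
            ring
  unfold ph
  have h1 := sv_add hΦ ∞ (((S : ℚ) / (p : ℚ) ^ i : ℚ) : OnePoint ℚ)
    (((S' : ℚ) / (p : ℚ) ^ i' : ℚ) : OnePoint ℚ)
  have h2 := key i S
  have h3 := key i' S'
  linear_combination h1 + h3 - h2

/-- The stabilised corrected symbol. -/
noncomputable def ps (p : ℕ) (ε : DirichletCharacter F N) (a : F)
    (Φ : OnePoint ℚ → OnePoint ℚ → MvPolynomial (Fin 2) F) (x y : ℚ) : F :=
  ph p ε a Φ x y - ε p / a * ph p ε a Φ (p * x) (p * y)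

include hΦ in
lemma ps_equiv (hp : p.Prime) : Eqv (p * N) (fun d => ε d) (ps p ε a Φ) := by
  intro A B C' D hdet hC x y hx hy
  have hpQ : (p : ℚ) ≠ 0 := by exact_mod_cast hp.ne_zero
  obtain ⟨m, hm⟩ := hC
  have hC1 : C' = p * (N * m) := by rw [hm]; push_cast; ring
  have hCQ : (C' : ℚ) = p * ((N * m : ℤ) : ℚ) := by rw [hC1]; push_cast; ring
  have h1 := ph_equiv (p := p) (a := a) hΦ A B C' D hdet ⟨p * m, by rw [hC1]; ring⟩ x y hx hy
  have hx' : (((N : ℤ) * m : ℤ) : ℚ) * (p * x) + D ≠ 0 := by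
    rw [hCQ] at hx
    intro h
    apply hx
    rw [← h]
    ring
  have hy' : (((N : ℤ) * m : ℤ) : ℚ) * (p * y) + D ≠ 0 := by
    rw [hCQ] at hy
    intro h
    apply hy
    rw [← h]
    ring
  have h2 := ph_equiv (p := p) (a := a) hΦ A (p * B) (N * m) D
    (by rw [hC1] at hdet; linear_combination hdet) ⟨m, rfl⟩ (p * x) (p * y) hx' hy'
  have e : ∀ z : ℚ, (A * (p * z) + ((p * B : ℤ) : ℚ)) / ((((N : ℤ) * m : ℤ) : ℚ) * (p * z) + D) =
      p * ((A * z + B) / (C' * z + D)) := by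
    intro z
    rw [hCQ]
    push_cast
    rw [← mul_div_assoc]
    congr 1 <;> ring
  rw [e, e] at h2
  unfold ps
  rw [h1, h2]
  ring

include hΦ hval in
/-- The function `h(x) = φ'(0, x)` is homogeneous for the multiplication by `p`. -/
lemma ph_scale (hp : p.Prime) [CharP F p] (hpN : ¬ p ∣ N) (ha : a ≠ 0)
    (hT : ∀ x y, heckeT p N ε Φ x y = C a * Φ x y) (β δ : ℤ) (hδ : δ ≠ 0)
    (hcop : IsCoprime δ (β * N)) :
    ph p ε a Φ 0 ((β : ℚ) / δ) = ε p / a * ph p ε a Φ 0 (p * ((β : ℚ) / δ)) := by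
  have hpQ : (p : ℚ) ≠ 0 := by exact_mod_cast hp.ne_zero
  have h := key_stepP_all (ψ := ps p ε a Φ) (χ := fun d => ε d) hp
    (hp.coprime_iff_not_dvd.mpr hpN) ha ?_ (ps_equiv hΦ hp) (by simp) ?_ ?_ β δ hδ hcop
  · unfold ps at h
    rw [mul_zero] at h
    exact sub_eq_zero.mp h
  · intro x y z
    unfold ps
    rw [← ph_add hΦ x y z, ← ph_add hΦ (p * x) (p * y) (p * z)]
    ring
  · intro S S' i i'
    unfold ps
    have e : ∀ (S : ℤ) (i : ℕ), (p : ℚ) * ((S : ℚ) / (p : ℚ) ^ i) =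
        ((p * S : ℤ) : ℚ) / (p : ℚ) ^ i := by
      intro S i
      push_cast
      ring
    rw [ph_van hΦ hval hp ha hT, e, e, ph_van hΦ hval hp ha hT]
    ring
  · intro x y
    unfold ps
    rw [sum_sub_distrib, ← mul_sum]
    have h1 := ph_T hΦ hval hp ha hT x y
    have h2 : ∀ j ∈ range p, ph p ε a Φ (p * ((x + j) / p)) (p * ((y + j) / p)) =
        ph p ε a Φ x y := by
      intro j _
      rw [mul_div_cancel₀ _ hpQ, mul_div_cancel₀ _ hpQ]
      have h3 := ph_equiv (p := p) (a := a) hΦ 1 j 0 1 (by ring) (dvd_zero _) x y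
        (by simp) (by simp)
      simpa using h3
    rw [sum_congr rfl h2, sum_const, card_range, nsmul_eq_mul, CharP.cast_eq_zero F p, zero_mul,
      mul_zero, sub_zero]
    field_simp
    linear_combination h1

end Vanishing

end Pool.Agent.MuW2
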