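import Pool.Agent.MuW2.Red
import Pool.Agent.MuSym.Branch

/-!
The `p`-stabilisation of a modular symbol of weight two.
-/

open MvPolynomial OnePoint Finset Pool.Agent.MuSym

namespace Pool.Agent.MuW2

variable {F : Type} [Field F] {N : ℕ}

/-- The `p`-stabilisation of a `T_p`-eigensymbol with eigenvalue `a ≠ 0`: the symbol minus
`a⁻¹` times the last term of the Hecke operator `T_p`. -/
noncomputable def stab (p : ℕ) (ε : DirichletCharacter F N) (a : F)
    (Φ : OnePoint ℚ → OnePoint ℚ → MvPolynomial (Fin 2) F) (x y : OnePoint ℚ) :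
    MvPolynomial (Fin 2) F :=
  Φ x y - C (ε p / a) * act 1 0 0 p (Φ (mob p 0 0 1 x) (mob p 0 0 1 y))

variable {p : ℕ} {ε : DirichletCharacter F N} {a : F}
  {Φ : OnePoint ℚ → OnePoint ℚ → MvPolynomial (Fin 2) F}

lemma act_const (A B C' D : ℤ) (r : F) : act A B C' D (C r : MvPolynomial (Fin 2) F) = C r := by
  simp [act]

lemma phi_eq_sv (hΦ : IsModSym N 0 ε Φ) (x y : OnePoint ℚ) : Φ x y = C (sv Φ x y) := by
  have h1 : Φ x y = C (coeff 0 (Φ x y)) := by
    rw [← totalDegree_eq_zero_iff_eq_C]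
    exact Nat.le_zero.mp (hΦ.homog x y).totalDegree_le
  unfold sv
  rw [h1, eval_C]

lemma stab_eq (hΦ : IsModSym N 0 ε Φ) (x y : OnePoint ℚ) : stab p ε a Φ x y =
    C (sv Φ x y - ε p / a * sv Φ (mob p 0 0 1 x) (mob p 0 0 1 y)) := by
  unfold stab
  rw [phi_eq_sv hΦ (mob p 0 0 1 x), act_const, phi_eq_sv hΦ x y, map_sub, map_mul]

lemma mob_diag {p : ℕ} (hp : p ≠ 0) (A B m D : ℤ) (x : OnePoint ℚ) :
    mob p 0 0 1 (mob A B (p * m) D x) = mob A (p * B) m D (mob p 0 0 1 x) := by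
  have hpQ : (p : ℚ) ≠ 0 := by exact_mod_cast hp
  have hpZ : (p : ℤ) ≠ 0 := by exact_mod_cast hp
  induction x using OnePoint.rec with
  | infty =>
    rw [mob_infty_zero]
    by_cases hm : m = 0
    · simp [mob, hm]
    · have h1 : (p : ℤ) * m ≠ 0 := mul_ne_zero hpZ hm
      have h2 : mob A B (p * m) D ∞ = (((A : ℚ) / ((p * m : ℤ) : ℚ) : ℚ) : OnePoint ℚ) := by
        simp [mob, h1]
      have h3 : mob A (p * B) m D ∞ = (((A : ℚ) / (m : ℚ) : ℚ) : OnePoint ℚ) := by
        simp [mob, hm]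
      rw [h2, h3, mob_low]
      congr 1
      have hmQ : (m : ℚ) ≠ 0 := by exact_mod_cast hm
      push_cast
      field_simp
  | coe r =>
    rw [mob_low]
    by_cases h : ((p * m : ℤ) : ℚ) * r + D = 0
    · have h1 : mob A B (p * m) D (r : OnePoint ℚ) = ∞ := by simp only [mob, OnePoint.elim_some, if_pos h]
      have h2 : (m : ℚ) * (p * r) + D = 0 := by
        push_cast at h
        rw [← h]
        ring
      have h3 : mob A (p * B) m D ((p * r : ℚ) : OnePoint ℚ) = ∞ := by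
        simp only [mob, OnePoint.elim_some, if_pos h2]
      rw [h1, h3, mob_infty_zero]
    · have h2 : (m : ℚ) * (p * r) + D ≠ 0 := by
        intro h3
        apply h
        rw [← h3]
        push_cast
        ring
      rw [mob_coe _ _ _ _ h, mob_coe _ _ _ _ h2, mob_low]
      congr 1
      rw [← mul_div_assoc]
      congr 1
      · push_cast; ring
      · push_cast; ring

lemma eps_level (hdvd : N ∣ p * N) {D : ℤ} (hD : IsCoprime D ((p * N : ℕ) : ℤ)) :
    (DirichletCharacter.changeLevel hdvd ε) D = ε D := by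
  have hu : IsUnit ((D : ℤ) : ZMod (p * N)) := by
    obtain ⟨s, t, hst⟩ := hD
    refine IsUnit.of_mul_eq_one (s : ZMod (p * N)) ?_
    have := congrArg (Int.cast : ℤ → ZMod (p * N)) hst
    push_cast at this
    rw [← Nat.cast_mul, ZMod.natCast_self, mul_zero, add_zero] at this
    exact (mul_comm _ _).trans this
  obtain ⟨u, hu'⟩ := hu
  have h := DirichletCharacter.changeLevel_eq_cast_of_dvd ε hdvd u
  rw [hu'] at h
  rw [h]
  congr 1
  exact ZMod.cast_intCast hdvd D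

lemma stab_isModSym (hp : p.Prime) (hΦ : IsModSym N 0 ε Φ) :
    IsModSym (p * N) 0 (DirichletCharacter.changeLevel (Nat.dvd_mul_left N p) ε)
      (stab p ε a Φ) where
  homog x y := by
    rw [stab_eq hΦ]
    exact isHomogeneous_C _ _
  add x y z := by
    rw [stab_eq hΦ, stab_eq hΦ, stab_eq hΦ, ← map_add, ← sv_add hΦ x y z,
      ← sv_add hΦ (mob p 0 0 1 x) (mob p 0 0 1 y) (mob p 0 0 1 z)]
    congr 1
    ring
  equiv A B C' D hdet hC x y := by
    obtain ⟨m, hm⟩ := hC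
    have hC1 : C' = p * (N * m) := by rw [hm]; push_cast; ring
    have hD : IsCoprime D ((p * N : ℕ) : ℤ) := by
      refine ⟨A, -(B * m), ?_⟩
      rw [hm] at hdet
      linear_combination hdet
    rw [stab_eq hΦ, stab_eq hΦ, act_const, ← map_mul, eps_level _ hD]
    congr 1
    rw [sv_equiv hΦ A B C' D hdet ⟨p * m, by rw [hC1]; ring⟩, hC1, mob_diag hp.ne_zero,
      mob_diag hp.ne_zero, sv_equiv hΦ A (p * B) (N * m) D
        (by rw [hC1] at hdet; linear_combination hdet) ⟨m, rfl⟩]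
    ring

lemma mob_neg_low (x : OnePoint ℚ) :
    mob p 0 0 1 (mob (-1) 0 0 1 x) = mob (-1) 0 0 1 (mob p 0 0 1 x) := by
  induction x using OnePoint.rec with
  | infty => rw [mob_infty_zero, mob_infty_zero, mob_infty_zero]
  | coe r =>
    rw [mob_low, mob_coe (-1) 0 0 1 (by simp), mob_coe (-1) 0 0 1 (by simp), mob_low]
    congr 1
    push_cast
    ring

lemma stab_hasSign {s : F} (hΦ : IsModSym N 0 ε Φ) (hs : HasSign s Φ) :
    HasSign s (stab p ε a Φ) := by
  intro x y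
  have h : ∀ x y, sv Φ (mob (-1) 0 0 1 x) (mob (-1) 0 0 1 y) = s * sv Φ x y := by
    intro x y
    have h1 := congrArg (eval ![0, 1]) (hs x y)
    rw [phi_eq_sv hΦ x y, act_const, ← map_mul, eval_C] at h1
    exact h1
  rw [stab_eq hΦ, stab_eq hΦ, act_const, ← map_mul]
  congr 1
  rw [h, mob_neg_low, mob_neg_low, h]
  ring

lemma stab_val (hp : p.Prime) (hΦ : IsModSym N 0 ε Φ) {n : ℕ} (hn : 1 ≤ n) (b : ℤ) :
    MuSym.val p (stab p ε a Φ) n b = sv Φ ∞ (((b : ℚ) / (p : ℚ) ^ n : ℚ) : OnePoint ℚ) -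
      ε p / a * sv Φ ∞ (((b : ℚ) / (p : ℚ) ^ (n - 1) : ℚ) : OnePoint ℚ) := by
  have hpQ : (p : ℚ) ≠ 0 := by exact_mod_cast hp.ne_zero
  unfold MuSym.val
  rw [stab_eq hΦ, eval_C, mob_infty_zero, mob_low]
  obtain ⟨k, rfl⟩ : ∃ k, n = k + 1 := ⟨n - 1, by omega⟩
  rw [Nat.add_sub_cancel]
  have e : (p : ℚ) * ((b : ℚ) / (p : ℚ) ^ (k + 1)) = (b : ℚ) / (p : ℚ) ^ k := by
    field_simp
    ring
  rw [e]

end Pool.Agent.MuW2
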